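import Pool.Agent.WGS.Ind
import Pool.Agent.WGS.Sha

set_option autoImplicit false
set_option linter.unusedVariables false

/-!
# [HQB-Alg1] the roots of an integral exponential polynomial are algebraic
-/

namespace HQB

open WGS Polynomial

/-- a recurrence with rational coefficients of a rational sequence -/
theorem alg1_rat (f : ℕ → ℤ) (hf : IsLRS fun k => (f k : ℂ)) :
    ∃ Q : ℚ[X], Q ≠ 0 ∧ aeval Sh (Q.map (algebraMap ℚ ℂ)) (fun k => (f k : ℂ)) = 0 := by
  obtain ⟨d, c, hcd, h⟩ := hf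
  obtain ⟨φ, hφ⟩ : ∃ φ : Module.Dual ℚ ℂ, φ (c d) ≠ 0 := by
    by_contra hno
    push Not at hno
    exact hcd ((Module.forall_dual_apply_eq_zero_iff ℚ (c d)).1 hno)
  have hcoeff : ∀ j, (∑ i ∈ Finset.range (d + 1), C (φ (c i)) * X ^ i : ℚ[X]).coeff j
      = if j ∈ Finset.range (d + 1) then φ (c j) else 0 := by
    intro j
    rw [finsetSum_coeff]
    simp only [coeff_C_mul_X_pow]
    rw [Finset.sum_ite_eq]
  refine ⟨∑ i ∈ Finset.range (d + 1), C (φ (c i)) * X ^ i, ?_, ?_⟩
  · intro h0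
    have h1 := hcoeff d
    rw [h0, coeff_zero, if_pos (Finset.self_mem_range_succ d)] at h1
    exact hφ h1.symm
  · have hdeg : (∑ i ∈ Finset.range (d + 1), C (φ (c i)) * X ^ i : ℚ[X]).natDegree ≤ d := by
      refine natDegree_sum_le_of_forall_le _ _ fun i hi => ?_
      exact (natDegree_C_mul_X_pow_le _ _).trans (by
        have := Finset.mem_range.1 hi
        omega)
    funext n
    rw [aeval_sh _ d (natDegree_map_le.trans hdeg)]
    have h1 : ∑ i ∈ Finset.range (d + 1), (φ (c i) : ℚ) * (f (n + i) : ℚ) = 0 := by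
      have h1 := congr_arg φ (h n)
      rw [map_sum, map_zero] at h1
      rw [← h1]
      apply Finset.sum_congr rfl
      intro i _
      have h2 : c i * (f (n + i) : ℂ) = (f (n + i) : ℚ) • c i := by
        rw [Algebra.smul_def, mul_comm]
        simp
      rw [h2, map_smul, smul_eq_mul, mul_comm]
    show ∑ i ∈ Finset.range (d + 1), _ * (f (n + i) : ℂ) = 0
    have h3 := congr_arg (algebraMap ℚ ℂ) h1
    rw [map_sum, map_zero] at h3
    rw [← h3]
    apply Finset.sum_congr rfl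
    intro i hi
    rw [coeff_map, hcoeff i, if_pos hi, map_mul]
    congr 1

/-- Proof. `f` is a linear recurrence sequence over `ℂ` (`ep_lrs`), hence satisfies a recurrence with rational coefficients: apply a `ℚ`-linear
functional `φ : ℂ → ℚ` with `φ (c d) ≠ 0` to the complex one (as at the end of WGS/Sml, theorem `sml`). So there is `q : ℚ[X]`, `q ≠ 0`, with
`aeval Sh (q.map (algebraMap ℚ ℂ)) f = 0` (`Sh` the shift, WGS/Ep2: `aeval_sh`). Group the sum by `α`: `f = ∑_α f_α`,
`f_α = ∑_{x ∈ S, x.1 = α} c x • ee α x.2 ∈ Sh.maxGenEigenspace α` (`ee_gen`), nonzero if `α` occurs in `S` (`ee_indep`). `q(Sh)` maps each generalised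
eigenspace to itself and these are independent (`Module.End.independent_maxGenEigenspace`), so `q(Sh) f_α = 0`; if `q α ≠ 0` then `q` is coprime to
every `(X - α) ^ n`, which kills `f_α` for some `n`, so `f_α = 0`. So `q α = 0`. (Alternative: for each `α` take the term with the largest `x.2`; the coefficient of
`ee α x.2` in `q(Sh) f` is `c x * q α`, as `(Sh - α) ee α i ∈ span {ee α j | j < i}` (`ep2_diff`), and use `ee_indep`.) -/
theorem alg_root (f : ℕ → ℤ) (S : Finset (ℂˣ × ℕ)) (c : ℂˣ × ℕ → ℂ) (hc : ∀ x ∈ S, c x ≠ 0)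
    (hf : ∀ k, (f k : ℂ) = ∑ x ∈ S, c x * ee x.1 x.2 k) :
    ∀ x ∈ S, IsAlgebraic ℚ (x.1 : ℂ) := by
  classical
  have hu : (fun k => (f k : ℂ)) = ∑ x ∈ S, c x • ee x.1 x.2 := by
    funext k
    rw [hf k, Finset.sum_apply]
    rfl
  have hEP : (fun k => (f k : ℂ)) ∈ EP := by
    rw [hu]
    exact Submodule.sum_mem _ fun x _ => Submodule.smul_mem _ _ (ee_mem x.1 x.2)
  obtain ⟨Q, hQ0, hQ⟩ := alg1_rat f (ep_lrs hEP)
  set P : ℂ[X] := Q.map (algebraMap ℚ ℂ) with hP
  let A : Finset ℂˣ := S.image Prod.fst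
  let v : ℂˣ → (ℕ → ℂ) := fun a => ∑ x ∈ S with x.1 = a, c x • ee x.1 x.2
  have hv : ∀ a : ℂˣ, v a ∈ Sh.maxGenEigenspace (a : ℂ) := by
    intro a
    refine Submodule.sum_mem _ fun x hx => Submodule.smul_mem _ _ ?_
    have h1 : x.1 = a := (Finset.mem_filter.1 hx).2
    rw [← h1]
    exact ee_gen x.1 x.2
  have hPv : ∀ a : ℂˣ, aeval Sh P (v a) ∈ Sh.maxGenEigenspace (a : ℂ) := by
    intro a
    have hcomm : Commute Sh (aeval Sh P) := by
      have h0 := (Commute.all (X : ℂ[X]) P).map (aeval Sh)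
      rwa [aeval_X] at h0
    exact Module.End.mapsTo_maxGenEigenspace_of_comm hcomm (a : ℂ) (hv a)
  have hsum : ∑ a ∈ A, aeval Sh P (v a) = 0 := by
    rw [← map_sum, ← hQ, hu]
    congr 1
    exact Finset.sum_fiberwise_of_maps_to (fun x hx => Finset.mem_image_of_mem _ hx) _
  have hind : iSupIndep fun α : ℂˣ => Sh.maxGenEigenspace (α : ℂ) :=
    (Module.End.independent_maxGenEigenspace Sh).comp Units.val_injective
  have h2 := (iSupIndep_iff_finsetSum_eq_zero_imp_eq_zero _).1 hind A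
    (fun α => aeval Sh P (v α)) (fun α _ => hPv α) hsum
  intro x₀ hx₀
  have hroot : P.eval (x₀.1 : ℂ) = 0 := by
    by_contra hne
    have h3 : aeval Sh P (v x₀.1) = 0 := h2 x₀.1 (Finset.mem_image_of_mem _ hx₀)
    obtain ⟨k, hk⟩ := (Module.End.mem_maxGenEigenspace _ _ _).1 (hv x₀.1)
    have hk' : aeval Sh ((X - C (x₀.1 : ℂ)) ^ k) (v x₀.1) = 0 := by
      rw [map_pow, map_sub, aeval_X, aeval_C]
      exact hk
    have hcop : IsCoprime P ((X - C (x₀.1 : ℂ)) ^ k) := by
      apply IsCoprime.pow_right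
      apply IsCoprime.symm
      apply (irreducible_X_sub_C (x₀.1 : ℂ)).coprime_iff_not_dvd.2
      intro hd
      exact hne (dvd_iff_isRoot.1 hd)
    obtain ⟨a, b, hab⟩ := hcop
    have hz : v x₀.1 = 0 := by
      have h4 : aeval Sh (a * P + b * (X - C (x₀.1 : ℂ)) ^ k) (v x₀.1) = v x₀.1 := by
        rw [hab, map_one]
        rfl
      rw [← h4, map_add, LinearMap.add_apply, map_mul, map_mul, Module.End.mul_apply,
        Module.End.mul_apply, h3, hk', map_zero, map_zero, add_zero]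
    have h5 := (linearIndependent_iff'.1 ee_indep) (S.filter fun x => x.1 = x₀.1) c hz x₀
      (Finset.mem_filter.2 ⟨hx₀, rfl⟩)
    exact hc x₀ hx₀ h5
  refine ⟨Q, hQ0, ?_⟩
  rw [aeval_def, ← eval_map]
  exact hroot

end HQB
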