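import Pool.Agent.HQB.Alg1

set_option autoImplicit false
set_option linter.unusedVariables false

/-!
# [HQB-Alg2] the coefficients of an integral exponential polynomial are algebraic
-/

namespace HQB

open WGS Polynomial

/-- Proof. `A = algebraicClosure ℚ ℂ` (an `IntermediateField ℚ ℂ`; an element of `ℂ` is in it iff it is algebraic over `ℚ`). There is an `A`-linear
`lam : ℂ → A` with `lam a = a` for `a ∈ A` (left inverse of `Algebra.linearMap A ℂ`, `LinearMap.exists_leftInverse_of_injective`). By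
`alg_root` all `ee x.1 x.2 k` are in `A`, so applying `lam` to `hf`: `f k = ∑ x ∈ S, lam (c x) * ee x.1 x.2 k`. By `ee_indep` (difference of the two) `c x = lam (c x) ∈ A`. -/
theorem alg_coef (f : ℕ → ℤ) (S : Finset (ℂˣ × ℕ)) (c : ℂˣ × ℕ → ℂ) (hc : ∀ x ∈ S, c x ≠ 0)
    (hf : ∀ k, (f k : ℂ) = ∑ x ∈ S, c x * ee x.1 x.2 k) :
    ∀ x ∈ S, IsAlgebraic ℚ (c x) := by
  have hroot := alg_root f S c hc hf
  let A := algebraicClosure ℚ ℂ
  obtain ⟨lam, hlam⟩ := LinearMap.exists_leftInverse_of_injective (Algebra.linearMap A ℂ)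
    (LinearMap.ker_eq_bot.2 (algebraMap A ℂ).injective)
  have hl : ∀ a : A, lam (a : ℂ) = a := fun a => LinearMap.congr_fun hlam a
  have hmul : ∀ (a : A) (z : ℂ), lam (z * (a : ℂ)) = lam z * a := by
    intro a z
    have h1 : z * (a : ℂ) = a • z := by
      rw [mul_comm]
      rfl
    rw [h1, map_smul, smul_eq_mul, mul_comm]
  have hmemA : ∀ z : ℂ, IsAlgebraic ℚ z → z ∈ A := fun z hz => mem_algebraicClosure_iff.2 hz
  have hee : ∀ x ∈ S, ∀ k, ee x.1 x.2 k ∈ A := by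
    intro x hx k
    unfold ee
    exact mul_mem (pow_mem (natCast_mem A k) _) (pow_mem (hmemA _ (hroot x hx)) _)
  have h1 : ∀ k, ∑ x ∈ S, ((lam (c x) : A) : ℂ) * ee x.1 x.2 k = (f k : ℂ) := by
    intro k
    have h2 : lam (f k : ℂ) = ∑ x ∈ S, lam (c x * ee x.1 x.2 k) := by
      rw [hf k, map_sum]
    have h3 : lam (f k : ℂ) = ((f k : ℤ) : A) := by
      have := hl ((f k : ℤ) : A)
      rw [← this]
      congr 1
    rw [h3] at h2
    have h4 : (((f k : ℤ) : A) : ℂ) = ((∑ x ∈ S, lam (c x * ee x.1 x.2 k) : A) : ℂ) := by rw [h2]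
    have h5 : (((f k : ℤ) : A) : ℂ) = (f k : ℂ) := by push_cast; rfl
    rw [h5] at h4
    rw [h4]
    rw [AddSubmonoidClass.coe_finsetSum]
    refine Finset.sum_congr rfl fun x hx => ?_
    have h6 := hmul ⟨ee x.1 x.2 k, hee x hx k⟩ (c x)
    rw [h6]
    rfl
  have h2 : ∑ x ∈ S, (((lam (c x) : A) : ℂ) - c x) • ee x.1 x.2 = 0 := by
    funext k
    rw [Finset.sum_apply]
    show ∑ x ∈ S, (((lam (c x) : A) : ℂ) - c x) * ee x.1 x.2 k = 0
    simp only [sub_mul]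
    rw [Finset.sum_sub_distrib, h1 k, hf k, sub_self]
  intro x hx
  have h3 := (linearIndependent_iff'.1 ee_indep) S (fun x => (((lam (c x) : A) : ℂ) - c x)) h2 x hx
  have h4 : c x = ((lam (c x) : A) : ℂ) := (sub_eq_zero.1 h3).symm
  rw [h4]
  exact mem_algebraicClosure_iff.1 (lam (c x)).2

/-- Proof. `Finsupp.mem_span_range_iff_exists_finsupp` for `EP = span (range ee)`, `S` the support; then `alg_root`, `alg_coef`. -/
theorem ep_alg (f : ℕ → ℤ) (hf : (fun k => (f k : ℂ)) ∈ EP) :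
    ∃ (S : Finset (ℂˣ × ℕ)) (c : ℂˣ × ℕ → ℂ), (∀ x ∈ S, c x ≠ 0) ∧
      (∀ x ∈ S, IsAlgebraic ℚ (x.1 : ℂ)) ∧ (∀ x ∈ S, IsAlgebraic ℚ (c x)) ∧
      ∀ k, (f k : ℂ) = ∑ x ∈ S, c x * ((k : ℂ) ^ x.2 * (x.1 : ℂ) ^ k) := by
  unfold EP at hf
  obtain ⟨l, hl⟩ := (Finsupp.mem_span_range_iff_exists_finsupp).1 hf
  have h1 : ∀ k, (f k : ℂ) = ∑ x ∈ l.support, l x * ee x.1 x.2 k := by
    intro k
    have h2 := congrFun hl k
    rw [Finsupp.sum, Finset.sum_apply] at h2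
    rw [← h2]
    rfl
  have hc : ∀ x ∈ l.support, l x ≠ 0 := fun x hx => Finsupp.mem_support_iff.1 hx
  exact ⟨l.support, l, hc, alg_root f _ _ hc h1, alg_coef f _ _ hc h1, h1⟩

end HQB
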