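import Mathlib

set_option autoImplicit false
set_option linter.unusedVariables false

/-!
# [HQB] definitions

`Df s u k = u (k + s) - u k` (difference of step `s`), `hk g n` the Hankel determinant
`det (g (i + j))_{i, j < n}`.
-/

namespace HQB

/-- difference of step `s` -/
def Df (s : ℕ) (u : ℕ → ℤ) : ℕ → ℤ := fun k => u (k + s) - u k

/-- Hankel determinant -/
def hk (g : ℕ → ℤ) (n : ℕ) : ℤ := (Matrix.of fun i j : Fin n => g (i + j)).det

end HQB
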