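import Mathlib

set_option autoImplicit false
set_option linter.unusedVariables false

/-!
# [HQB-Cls] power residues and divisors of `b ^ n + 1`
-/

namespace HQB

/-- Proof. Suppose `p ∣ b ^ n + 1`. In `ZMod p`: `b ^ n = -1`, `b ^ (2 n) = 1`, `o = orderOf b ∣ 2 n` is prime to `q`. There is `u` with
`q u ≡ 1 mod o` (`Nat.exists_mul_emod_eq_one_of_coprime` or `Nat.chineseRemainder`; `o = 1`: `u = 1`), so `(b ^ u) ^ q = b` in `ZMod p`, that is
`p ∣ (b ^ u) ^ q - b`. -/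
theorem cls (b q p n : ℕ) (hq : q.Prime) (hq2 : q ≠ 2) (hp : p.Prime) (hn : ¬ q ∣ n) (hn0 : n ≠ 0)
    (h : ∀ c : ℤ, ¬ (p : ℤ) ∣ c ^ q - b) : ¬ p ∣ b ^ n + 1 := by
  intro hd
  have : Fact p.Prime := ⟨hp⟩
  have hbn : (b : ZMod p) ^ n = -1 := by
    have h1 : ((b ^ n + 1 : ℕ) : ZMod p) = 0 := (ZMod.natCast_eq_zero_iff _ _).2 hd
    push_cast at h1
    exact eq_neg_of_add_eq_zero_left h1
  have hb2 : (b : ZMod p) ^ (2 * n) = 1 := by rw [mul_comm, pow_mul, hbn, neg_one_sq]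
  have hob : orderOf (b : ZMod p) ∣ 2 * n := orderOf_dvd_of_pow_eq_one hb2
  have hcop : q.Coprime (orderOf (b : ZMod p)) := by
    rw [Nat.Prime.coprime_iff_not_dvd hq]
    intro hqo
    rcases (Nat.Prime.dvd_mul hq).1 (hqo.trans hob) with h1 | h1
    · exact hq2 ((Nat.prime_dvd_prime_iff_eq hq Nat.prime_two).1 h1)
    · exact hn h1
  have key : ∃ u : ℕ, ((b : ZMod p) ^ u) ^ q = b := by
    by_cases ho : orderOf (b : ZMod p) = 1
    · refine ⟨1, ?_⟩
      have h1 : (b : ZMod p) = 1 := orderOf_eq_one_iff.1 ho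
      rw [h1]
      simp
    · have ho1 : 1 < orderOf (b : ZMod p) := by
        have : orderOf (b : ZMod p) ≠ 0 := by
          intro h0
          rw [h0, Nat.zero_dvd] at hob
          omega
        omega
      obtain ⟨u, hu⟩ := Nat.exists_mul_mod_eq_one_of_coprime hcop ho1
      refine ⟨u, ?_⟩
      rw [← pow_mul, mul_comm u q, ← pow_mod_orderOf, hu.2, pow_one]
  obtain ⟨u, hu⟩ := key
  refine h ((b : ℤ) ^ u) ?_
  rw [← ZMod.intCast_zmod_eq_zero_iff_dvd]
  push_cast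
  rw [hu, sub_self]

end HQB
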