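import Mathlib
import Pool.Agent.WGS.Cap

set_option autoImplicit false
set_option linter.unusedVariables false

/-!
# [HQB-Deg] `b` is not a `q`-th power in a cyclotomic extension
-/

namespace HQB

open Polynomial IntermediateField

/-- Proof. `K = adjoin ℚ s` is finite over `ℚ`; `q₀ = finrank ℚ K + b + 3`. Let `q ≥ q₀` be prime, `L = adjoin ℚ (insert ζ s)`, `β ∈ L`,
`β ^ q = b`. `b` is not a `q`-th power of a rational number (`0 ≤ a`, `a ^ q = b` makes `a` a natural number `≥ 2`, but `2 ^ q > b`;
for negative `a` the power is negative as `q` is odd), so `X ^ q - C b` is irreducible over `ℚ` (`X_pow_sub_C_irreducible_of_prime`), it is the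
minimal polynomial of `β`, so `q = finrank ℚ (ℚ(β))` divides `finrank ℚ L = finrank ℚ K * finrank K K(ζ)` (`L = K(ζ)`:
`IntermediateField.adjoin_insert..`, `restrictScalars`, `Module.finrank_mul_finrank`; or work with an upper bound only, in any way that is
convenient), and `1 ≤ finrank K K(ζ) ≤ q - 1` because `ζ` is a root of `1 + X + ... + X ^ (q - 1)`. As `q` is prime and larger than both
factors, contradiction. -/
theorem kum_deg (s : Finset ℂ) (hs : ∀ x ∈ s, IsAlgebraic ℚ x) (b : ℕ) (hb : 2 ≤ b) :
    ∃ q₀ : ℕ, ∀ q : ℕ, q.Prime → q₀ ≤ q → ∀ ζ : ℂ, IsPrimitiveRoot ζ q →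
      ∀ β ∈ IntermediateField.adjoin ℚ (insert ζ (s : Set ℂ)), β ^ q ≠ b := by
  classical
  let K : IntermediateField ℚ ℂ := IntermediateField.adjoin ℚ (s : Set ℂ)
  have hK : FiniteDimensional ℚ K :=
    IntermediateField.finiteDimensional_adjoin fun x hx => (hs x hx).isIntegral
  refine ⟨Module.finrank ℚ K + b + 3, fun q hq hqge ζ hζ β hβ hβq => ?_⟩
  have hζK : IsIntegral K ζ := (hζ.isIntegral hq.pos).tower_top
  have hζint : IsIntegral ℚ ζ := (hζ.isIntegral hq.pos).tower_top
  let L : IntermediateField ℚ ℂ := IntermediateField.adjoin ℚ (insert ζ (s : Set ℂ))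
  have hL : FiniteDimensional ℚ L := by
    refine IntermediateField.finiteDimensional_adjoin fun x hx => ?_
    rcases hx with rfl | hx
    · exact hζint
    · exact (hs x hx).isIntegral
  have hLK : L = (IntermediateField.adjoin K {ζ}).restrictScalars ℚ := by
    have h := IntermediateField.adjoin_adjoin_left ℚ (s : Set ℂ) {ζ}
    rw [Set.union_singleton] at h
    exact h.symm
  have hfin1 : Module.finrank ℚ L = Module.finrank ℚ K * Module.finrank K (IntermediateField.adjoin K {ζ}) := by
    rw [Module.finrank_mul_finrank ℚ K (IntermediateField.adjoin K {ζ}), hLK]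
    rfl
  have hdeg : Module.finrank K (IntermediateField.adjoin K {ζ}) ≤ q - 1 := by
    rw [IntermediateField.adjoin.finrank hζK]
    have h1 : aeval ζ (cyclotomic q K) = 0 := by
      have : NeZero ((q : ℕ) : ℂ) := ⟨by exact_mod_cast hq.ne_zero⟩
      have h2 : IsRoot (cyclotomic q ℂ) ζ := (isRoot_cyclotomic_iff (n := q) (R := ℂ)).2 hζ
      rw [aeval_def, ← eval_map, map_cyclotomic]
      exact h2
    have h3 := natDegree_le_of_dvd (minpoly.dvd K ζ h1) (cyclotomic_ne_zero q K)
    rw [natDegree_cyclotomic, Nat.totient_prime hq] at h3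
    exact h3
  -- the degree of `β`
  have hirr : Irreducible (X ^ q - C (b : ℚ)) := by
    refine X_pow_sub_C_irreducible_of_prime hq fun a ha => ?_
    have hodd : Odd q := hq.odd_of_ne_two (by omega)
    have hbpos : (0 : ℚ) < b := by exact_mod_cast (by omega : 0 < b)
    have ha0 : 0 ≤ a := by
      by_contra hneg
      push Not at hneg
      have h1 := hodd.pow_neg hneg
      rw [ha] at h1
      linarith
    obtain ⟨n, rfl⟩ := WGS.rat_pow_eq_nat hq.ne_zero ha ha0
    have h1 : n ^ q = b := by exact_mod_cast ha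
    have h2 : 2 ≤ n := by
      by_contra h3
      have h4 : n = 0 ∨ n = 1 := by omega
      rcases h4 with rfl | rfl
      · rw [zero_pow hq.ne_zero] at h1
        omega
      · rw [one_pow] at h1
        omega
    have h3 : 2 ^ q ≤ b := by
      rw [← h1]
      exact Nat.pow_le_pow_left h2 q
    have h4 : q < 2 ^ q := Nat.lt_two_pow_self
    omega
  have hβint : aeval β (X ^ q - C (b : ℚ)) = 0 := by
    simp [hβq]
  have hmin : minpoly ℚ β = X ^ q - C (b : ℚ) :=
    (minpoly.eq_of_irreducible_of_monic hirr hβint (monic_X_pow_sub_C _ hq.ne_zero)).symm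
  have hβi : IsIntegral ℚ β := ⟨_, monic_X_pow_sub_C _ hq.ne_zero, hβint⟩
  have hfin2 : Module.finrank ℚ (IntermediateField.adjoin ℚ {β}) = q := by
    rw [IntermediateField.adjoin.finrank hβi, hmin, natDegree_X_pow_sub_C]
  have hle : IntermediateField.adjoin ℚ {β} ≤ L := by
    rw [IntermediateField.adjoin_le_iff]
    intro x hx
    rw [Set.mem_singleton_iff.1 hx]
    exact hβ
  have hdvd : q ∣ Module.finrank ℚ L := by
    rw [← hfin2]
    exact IntermediateField.finrank_dvd_of_le_right hle
  rw [hfin1] at hdvd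
  have hpos1 : 0 < Module.finrank ℚ K := Module.finrank_pos
  have hKζ : FiniteDimensional K (IntermediateField.adjoin K {ζ}) :=
    IntermediateField.adjoin.finiteDimensional hζK
  have hpos2 : 0 < Module.finrank K (IntermediateField.adjoin K {ζ}) := Module.finrank_pos
  rcases (Nat.Prime.dvd_mul hq).1 hdvd with h1 | h1
  · have := Nat.le_of_dvd hpos1 h1
    omega
  · have := Nat.le_of_dvd hpos2 h1
    omega

end HQB
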