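import Pool.Agent.HQB.Base

set_option autoImplicit false
set_option linter.unusedVariables false

/-!
# [HQB-Det] divisibility of Hankel determinants
-/

namespace HQB

open Polynomial

/-- the shift -/
def det_E : (ℕ → ℤ) →ₗ[ℤ] (ℕ → ℤ) where
  toFun u := fun k => u (k + 1)
  map_add' _ _ := rfl
  map_smul' _ _ := rfl

theorem det_E_pow (m : ℕ) : ∀ (u : ℕ → ℤ) (k : ℕ), (det_E ^ m) u k = u (k + m) := by
  induction m with
  | zero => intro u k; simp
  | succ m ih =>
    intro u k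
    rw [pow_succ, Module.End.mul_apply, ih]
    rfl

theorem det_Df (s : ℕ) (u : ℕ → ℤ) : (aeval det_E ((X : ℤ[X]) ^ s - 1)) u = Df s u := by
  funext k
  simp only [map_sub, map_pow, aeval_X, map_one, LinearMap.sub_apply, Module.End.one_apply,
    Pi.sub_apply, det_E_pow, Df]

theorem det_Df_pow (s m : ℕ) : ∀ (u : ℕ → ℤ),
    (aeval det_E (((X : ℤ[X]) ^ s - 1) ^ m)) u = (Df s)^[m] u := by
  induction m with
  | zero => intro u; simp
  | succ m ih =>
    intro u
    rw [pow_succ, map_mul, Module.End.mul_apply, det_Df, ih, Function.iterate_succ_apply]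

theorem det_Df_mul (s m k : ℕ) (u : ℕ → ℤ) :
    (aeval det_E ((X : ℤ[X]) ^ k * ((X : ℤ[X]) ^ s - 1) ^ m)) u 0 = (Df s)^[m] u k := by
  rw [map_mul, Module.End.mul_apply, det_Df_pow, map_pow, aeval_X, det_E_pow, zero_add]

/-- the polynomials -/
noncomputable def det_Q (s i : ℕ) : ℤ[X] := X ^ (i % s) * (X ^ s - 1) ^ (i / s)

theorem det_Q_monic (s i : ℕ) (hs : 0 < s) : (det_Q s i).Monic := by
  unfold det_Q
  refine (monic_X_pow _).mul (Monic.pow ?_ _)
  have : (X : ℤ[X]) ^ s - 1 = X ^ s - C 1 := by simp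
  rw [this]
  exact monic_X_pow_sub_C 1 hs.ne'

theorem det_Q_natDegree (s i : ℕ) (hs : 0 < s) : (det_Q s i).natDegree = i := by
  unfold det_Q
  have e : (X : ℤ[X]) ^ s - 1 = X ^ s - C 1 := by simp
  have hm : ((X : ℤ[X]) ^ s - 1).Monic := by rw [e]; exact monic_X_pow_sub_C 1 hs.ne'
  rw [(monic_X_pow _).natDegree_mul (hm.pow _), natDegree_X_pow, hm.natDegree_pow, e,
    natDegree_X_pow_sub_C]
  exact Nat.mod_add_div' i s

theorem det_aeval (g : ℕ → ℤ) (n : ℕ) (A B : ℤ[X]) (hA : A.natDegree < n) (hB : B.natDegree < n) :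
    (aeval det_E (A * B)) g 0 =
      ∑ a ∈ Finset.range n, ∑ b ∈ Finset.range n, A.coeff a * g (a + b) * B.coeff b := by
  conv_lhs => rw [A.as_sum_range' n hA, B.as_sum_range' n hB]
  rw [Finset.sum_mul_sum, map_sum, LinearMap.sum_apply, Finset.sum_apply]
  refine Finset.sum_congr rfl fun a _ => ?_
  rw [map_sum, LinearMap.sum_apply, Finset.sum_apply]
  refine Finset.sum_congr rfl fun b _ => ?_
  rw [monomial_mul_monomial, aeval_monomial, Module.End.mul_apply]
  rw [Module.algebraMap_end_apply, Pi.smul_apply, det_E_pow, zero_add, smul_eq_mul]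
  ring

theorem det_hk (s : ℕ) (hs : 0 < s) (g : ℕ → ℤ) (n : ℕ) :
    hk g n = (Matrix.of fun i j : Fin n =>
      (Df s)^[(i : ℕ) / s + (j : ℕ) / s] g ((i : ℕ) % s + (j : ℕ) % s)).det := by
  set L : Matrix (Fin n) (Fin n) ℤ := Matrix.of fun i a : Fin n => (det_Q s i).coeff a with hL
  have hdet : L.det = 1 := by
    rw [Matrix.det_of_isLowerTriangular L ?_]
    · refine Finset.prod_eq_one fun i _ => ?_
      have h := det_Q_monic s i hs
      rw [Monic, leadingCoeff, det_Q_natDegree s i hs] at h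
      exact h
    · intro i j hij
      have hij' : i < j := OrderDual.toDual_lt_toDual.mp hij
      rw [hL, Matrix.of_apply]
      refine coeff_eq_zero_of_natDegree_lt ?_
      rw [det_Q_natDegree s i hs]
      exact hij'
  have hM : L * (Matrix.of fun i j : Fin n => g (i + j)) * L.transpose =
      (Matrix.of fun i j : Fin n =>
      (Df s)^[(i : ℕ) / s + (j : ℕ) / s] g ((i : ℕ) % s + (j : ℕ) % s)) := by
    ext i j
    rw [Matrix.mul_apply]
    simp only [Matrix.mul_apply, Matrix.of_apply, Matrix.transpose_apply, hL]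
    have h1 := det_aeval g n (det_Q s i) (det_Q s j) (by rw [det_Q_natDegree s _ hs]; exact i.2)
      (by rw [det_Q_natDegree s _ hs]; exact j.2)
    have h2 : det_Q s i * det_Q s j =
        X ^ ((i : ℕ) % s + (j : ℕ) % s) * (X ^ s - 1) ^ ((i : ℕ) / s + (j : ℕ) / s) := by
      unfold det_Q; ring
    rw [h2, det_Df_mul] at h1
    rw [h1, Finset.sum_comm, Finset.sum_range]
    refine Finset.sum_congr rfl fun b _ => ?_
    rw [Finset.sum_mul, Finset.sum_range]
  rw [← hM, Matrix.det_mul, Matrix.det_mul, Matrix.det_transpose, hdet, one_mul, mul_one]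
  rfl

/-- Proof. `Q i = X ^ (i % s) * (X ^ s - 1) ^ (i / s) ∈ ℤ[X]` is monic of degree `i % s + s * (i / s) = i`. Let `L` be the
`n × n` matrix `L i a = (Q i).coeff a`: lower triangular with ones on the diagonal, `det L = 1`
(`Matrix.det_of_lowerTriangular`). With `M = (g (i + j))`: `(L * M * Lᵀ) i j = ∑_{a, b < n} (Q i).coeff a (Q j).coeff b g (a + b) =
∑_c (Q i * Q j).coeff c * g c` (degree `< n` each) `= (D^(i/s + j/s) g) (i % s + j % s)`: in general for the linear functional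
`Λ(A) = ∑_c A.coeff c * g c` one has `Λ(X ^ k * (X ^ s - 1) ^ m) = D^m g k` (induction on `m` for all `k`). So `hk g n = det (L M Lᵀ)`
and, by `Matrix.det_apply`, it is a sum over permutations `σ` of `± ∏_i (entry)`, whose `i`-th factor lies in
`P ^ (i/s + σ i/s)`, so the product lies in `P ^ ∑_i (i/s + σ(i)/s) = P ^ ∑_{i < n} 2 (i/s)`
(`Equiv.sum_comp`, `Ideal.prod_mem_prod`, `Finset.prod_pow_eq_pow_sum`). -/
theorem det_mem {R : Type} [CommRing R] (P : Ideal R) (s : ℕ) (hs : 0 < s) (g : ℕ → ℤ)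
    (h : ∀ j k, (((Df s)^[j] g k : ℤ) : R) ∈ P ^ j) (n : ℕ) :
    ((hk g n : ℤ) : R) ∈ P ^ (∑ i ∈ Finset.range n, 2 * (i / s)) := by
  rw [det_hk s hs, Matrix.det_apply, Int.cast_sum]
  refine Ideal.sum_mem _ fun σ _ => ?_
  have e : ∑ i ∈ Finset.range n, 2 * (i / s) =
      ∑ i : Fin n, (((σ i : Fin n) : ℕ) / s + (i : ℕ) / s) := by
    rw [Finset.sum_add_distrib, Equiv.sum_comp σ (fun i : Fin n => (i : ℕ) / s), Finset.sum_range,
      ← Finset.sum_add_distrib]
    refine Finset.sum_congr rfl fun i _ => ?_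
    ring
  have key : ((∏ i : Fin n, (Df s)^[((σ i : Fin n) : ℕ) / s + (i : ℕ) / s] g
      (((σ i : Fin n) : ℕ) % s + (i : ℕ) % s) : ℤ) : R) ∈ P ^ (∑ i ∈ Finset.range n, 2 * (i / s)) := by
    rw [e, ← Finset.prod_pow_eq_pow_sum, Int.cast_prod]
    exact Ideal.prod_mem_prod fun i _ => h _ _
  rcases Int.units_eq_one_or (Equiv.Perm.sign σ) with h1 | h1
  · rw [h1, one_smul]
    exact key
  · rw [h1, Units.neg_smul, one_smul, Int.cast_neg]
    exact (Ideal.neg_mem_iff _).mpr key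

end HQB
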