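import Pool.Agent.MP_c1dca2_ag.SC4.X4
import Pool.Agent.HQB.Base

set_option autoImplicit false
set_option linter.unusedVariables false

/-!
# [HQB-Res] degree one primes of a number field
-/

namespace HQB

open NumberField IsDedekindDomain

/-- Proof. The residue field of the valuation ring of `v` is `𝓞 F / v`, with `p` elements, so it is `ZMod p`
(`ZMod.ringEquivOfPrime` or `ZMod.castHom` bijective); compose `IsLocalRing.residue` with the equivalence. Model:
`SC4.exists_val` (file SC4/X4), whose proof treats `A = (v.valuation F).valuationSubring`; the residue map of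
`(v.valuation F).integer` kills exactly the `x` with `v x < 1`. -/
theorem res {F : Type} [Field F] [NumberField F] (v : HeightOneSpectrum (𝓞 F)) (p : ℕ)
    [Fact p.Prime] (hv : Ideal.absNorm v.asIdeal = p) :
    ∃ ρ : (v.valuation F).integer →+* ZMod p, ∀ x, ρ x = 0 ↔ v.valuation F (x : F) < 1 := by
  let A : ValuationSubring F := (v.valuation F).valuationSubring
  have hequiv : (v.valuation F).IsEquiv A.valuation :=
    (v.valuation F).isEquiv_valuation_valuationSubring
  let f : 𝓞 F →+* A :=
    { toFun := fun x => ⟨(x : F), (Valuation.mem_valuationSubring_iff _ _).mpr (v.valuation_le_one x)⟩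
      map_one' := by apply Subtype.ext; simp
      map_mul' := fun x y => by apply Subtype.ext; simp
      map_zero' := by apply Subtype.ext; simp
      map_add' := fun x y => by apply Subtype.ext; simp }
  let g : 𝓞 F →+* IsLocalRing.ResidueField A := (IsLocalRing.residue A).comp f
  have hsurj : Function.Surjective g := by
    intro y
    obtain ⟨a, rfl⟩ := IsLocalRing.residue_surjective y
    have ha : v.valuation F (a : F) ≤ 1 := (Valuation.mem_valuationSubring_iff _ _).mp a.2
    obtain ⟨b, hb⟩ := v.exists_valuation_sub_lt_of_integer ha 1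
    refine ⟨b, ?_⟩
    change IsLocalRing.residue A (f b) = IsLocalRing.residue A a
    rw [← sub_eq_zero, ← map_sub, IsLocalRing.residue_eq_zero_iff, A.valuation_lt_one_iff,
      ← hequiv.lt_one_iff_lt_one]
    rw [Units.val_one] at hb
    exact hb
  have hker : RingHom.ker g = v.asIdeal := by
    ext x
    rw [RingHom.mem_ker]
    change IsLocalRing.residue A (f x) = 0 ↔ _
    rw [IsLocalRing.residue_eq_zero_iff, A.valuation_lt_one_iff, ← hequiv.lt_one_iff_lt_one]
    exact v.valuation_lt_one_iff_mem x
  have hcard : Nat.card (IsLocalRing.ResidueField A) = p := by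
    rw [← hv, Ideal.absNorm_apply, Submodule.cardQuot_apply, ← hker]
    exact (Nat.card_congr (RingHom.quotientKerEquivOfSurjective hsurj).toEquiv).symm
  have hfin : Finite (IsLocalRing.ResidueField A) := by
    apply Nat.finite_of_card_ne_zero
    rw [hcard]
    exact (Fact.out : p.Prime).ne_zero
  let _ : Fintype (IsLocalRing.ResidueField A) := Fintype.ofFinite _
  let e : ZMod p ≃+* IsLocalRing.ResidueField A :=
    ZMod.ringEquivOfPrime _ (Fact.out : p.Prime) (by rw [← Nat.card_eq_fintype_card, hcard])
  let h : (v.valuation F).integer →+* A :=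
    { toFun := fun x => ⟨(x : F), x.2⟩
      map_one' := rfl
      map_mul' := fun x y => rfl
      map_zero' := rfl
      map_add' := fun x y => rfl }
  refine ⟨(e.symm : IsLocalRing.ResidueField A →+* ZMod p).comp ((IsLocalRing.residue A).comp h),
    fun x => ?_⟩
  rw [RingHom.comp_apply, RingHom.coe_coe, RingEquiv.map_eq_zero_iff, RingHom.comp_apply,
    IsLocalRing.residue_eq_zero_iff, A.valuation_lt_one_iff, ← hequiv.lt_one_iff_lt_one]
  exact Iff.rfl

theorem res_fin {F : Type} [Field F] [NumberField F] (z : 𝓞 F) (hz : z ≠ 0) :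
    {v : HeightOneSpectrum (𝓞 F) | z ∈ v.asIdeal}.Finite := by
  have h1 : (Ideal.span {z} : Ideal (𝓞 F)) ≠ 0 := by
    rw [Ne, Ideal.zero_eq_bot, Ideal.span_singleton_eq_bot]
    exact hz
  refine (Ideal.finite_factors h1).subset fun v hv => ?_
  show v.asIdeal ∣ Ideal.span {z}
  rw [Ideal.dvd_span_singleton]
  exact hv

/-- Proof. `x = a / b` with `a`, `b` nonzero in `𝓞 F` (`IsFractionRing.div_surjective`); `v x ≠ 1` implies `v a < 1` or `v b < 1`, that is
`v ∣ a` or `v ∣ b` (`valuation_lt_one_iff_mem`, `Ideal.finite_factors`). See also `SC4.X5_fin`. -/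
theorem fin_ne_one {F : Type} [Field F] [NumberField F] (x : F) (hx : x ≠ 0) :
    {v : HeightOneSpectrum (𝓞 F) | v.valuation F x ≠ 1}.Finite := by
  obtain ⟨a, b, hb, rfl⟩ := IsFractionRing.div_surjective (A := 𝓞 F) x
  have ha0 : a ≠ 0 := by
    rintro rfl
    exact hx (by simp)
  have hb0 : b ≠ 0 := nonZeroDivisors.ne_zero hb
  refine ((res_fin a ha0).union (res_fin b hb0)).subset fun v hv => ?_
  by_contra hcon
  rw [Set.mem_union, not_or] at hcon
  obtain ⟨h1, h2⟩ := hcon
  apply hv
  have h3 : ∀ z : 𝓞 F, z ∉ v.asIdeal → v.valuation F (algebraMap (𝓞 F) F z) = 1 := by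
    intro z hz
    refine le_antisymm (v.valuation_le_one z) (not_lt.mp fun hlt => hz ?_)
    exact (v.valuation_lt_one_iff_mem z).mp hlt
  rw [map_div₀, h3 a h1, h3 b h2, div_one]

end HQB
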