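import Pool.Agent.HQB.Kum3
import Pool.Agent.HQB.Deg
import Pool.Agent.HQB.Res

set_option autoImplicit false
set_option linter.unusedVariables false

/-!
# [HQB-Fld] good primes of a number field generated by given algebraic numbers
-/

namespace HQB

open NumberField IsDedekindDomain

/-- Proof. `ζ = exp (2 π i / q)` (`Complex.isPrimitiveRoot_exp`), `F = IntermediateField.adjoin ℚ (insert ζ s)` as a type: a number field
(finite dimensional, as all generators are algebraic, `IntermediateField.finiteDimensional_adjoin`-like lemmas; char zero), `ι` the inclusion. `q₀` from `kum_deg`;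
`good_primes` for `F` with `B` the finite set of the `v` with `v x ≠ 1` for a nonzero `x` of (the preimage of) `s` (`fin_ne_one`), together with
the `v` above `2` (those with `v 2 ≠ 1`). `p = absNorm v ≠ 2`, because `v` is not above `2` (`p ∈ v`, so `v p < 1`). -/
theorem exists_field (s : Finset ℂ) (hs : ∀ x ∈ s, IsAlgebraic ℚ x) (b : ℕ) (hb : 2 ≤ b) :
    ∃ q₀ : ℕ, ∀ q : ℕ, q.Prime → q₀ ≤ q →
      ∃ (F : Type) (_ : Field F) (_ : NumberField F) (ι : F →+* ℂ), (∀ x ∈ s, ∃ y, ι y = x) ∧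
        ∀ C : ℝ, ∃ S : Finset (HeightOneSpectrum (𝓞 F)),
          (∀ v ∈ S, (Ideal.absNorm v.asIdeal).Prime ∧ 3 ≤ Ideal.absNorm v.asIdeal ∧
            (∀ y : F, ι y ∈ s → y ≠ 0 → v.valuation F y = 1) ∧
            ∀ c : ℤ, ¬ ((Ideal.absNorm v.asIdeal : ℕ) : ℤ) ∣ c ^ q - b) ∧
          Set.InjOn (fun v : HeightOneSpectrum (𝓞 F) => Ideal.absNorm v.asIdeal) S ∧
          C ≤ ∑ v ∈ S, 1 / (Ideal.absNorm v.asIdeal : ℝ) := by
  classical
  obtain ⟨q₀, hq₀⟩ := kum_deg s hs b hb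
  refine ⟨q₀, fun q hq hqge => ?_⟩
  obtain ⟨ζ, hζ⟩ : ∃ ζ : ℂ, IsPrimitiveRoot ζ q := ⟨_, Complex.isPrimitiveRoot_exp q hq.ne_zero⟩
  have hζalg : IsAlgebraic ℚ ζ := by
    have h1 : IsIntegral ℤ ζ := hζ.isIntegral hq.pos
    exact (h1.tower_top (A := ℚ)).isAlgebraic
  let L : IntermediateField ℚ ℂ := IntermediateField.adjoin ℚ (insert ζ (s : Set ℂ))
  have hfd : FiniteDimensional ℚ L := by
    refine IntermediateField.finiteDimensional_adjoin fun x hx => ?_
    rcases hx with rfl | hx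
    · exact hζalg.isIntegral
    · exact (hs x hx).isIntegral
  have hnf : NumberField L := ⟨⟩
  have hmem : ∀ x ∈ s, x ∈ L := fun x hx =>
    IntermediateField.subset_adjoin ℚ _ (Set.mem_insert_of_mem _ hx)
  have hζmem : ζ ∈ L := IntermediateField.subset_adjoin ℚ _ (Set.mem_insert _ _)
  have hζL : IsPrimitiveRoot (⟨ζ, hζmem⟩ : L) q := by
    refine IsPrimitiveRoot.of_map_of_injective (f := algebraMap L ℂ) ?_ (algebraMap L ℂ).injective
    exact hζ
  refine ⟨L, inferInstance, hnf, algebraMap L ℂ, fun x hx => ⟨⟨x, hmem x hx⟩, rfl⟩, fun C => ?_⟩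
  -- the bad primes
  obtain ⟨B, hB⟩ : ∃ B : Set (HeightOneSpectrum (𝓞 L)), B =
      (⋃ x ∈ s.subtype (fun x => x ∈ L) |>.filter (fun x => x ≠ 0),
        {v : HeightOneSpectrum (𝓞 L) | v.valuation L (x : L) ≠ 1}) ∪
      {v : HeightOneSpectrum (𝓞 L) | v.valuation L (2 : L) ≠ 1} := ⟨_, rfl⟩
  have hBfin : B.Finite := by
    rw [hB]
    refine Set.Finite.union ?_ (fin_ne_one _ two_ne_zero)
    refine Set.Finite.biUnion (Finset.finite_toSet _) fun x hx => ?_
    exact fin_ne_one x (Finset.mem_filter.1 hx).2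
  obtain ⟨S, hS, hinj, hsum⟩ := good_primes L q hq ⟨ζ, hζmem⟩ hζL b (by omega)
    (fun β hβ => hq₀ q hq hqge ζ hζ (β : ℂ) β.2 (by
      have h1 := congrArg (algebraMap L ℂ) hβ
      rw [map_pow, map_natCast] at h1
      exact h1)) B hBfin C
  refine ⟨S, fun v hv => ?_, hinj, hsum⟩
  obtain ⟨hvB, hp, hres⟩ := hS v hv
  rw [hB] at hvB
  have hv2 : v.valuation L (2 : L) = 1 := by
    by_contra h
    exact hvB (Or.inr h)
  refine ⟨hp, ?_, fun y hy hy0 => ?_, hres⟩
  · have h2 : Ideal.absNorm v.asIdeal ≠ 2 := by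
      intro h
      have h1 := Ideal.absNorm_mem v.asIdeal
      rw [h] at h1
      have h3 := (v.valuation_lt_one_iff_mem (K := L) _).2 h1
      have h4 : algebraMap (𝓞 L) L ((2 : ℕ) : 𝓞 L) = 2 := by
        rw [map_natCast]
        norm_num
      have h5 : v.valuation L (algebraMap (𝓞 L) L ((2 : ℕ) : 𝓞 L)) < 1 := h3
      rw [h4, hv2] at h5
      exact lt_irrefl _ h5
    have := hp.two_le
    omega
  · by_contra h
    refine hvB (Or.inl ?_)
    simp only [Set.mem_iUnion]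
    refine ⟨y, ?_, h⟩
    rw [Finset.mem_filter, Finset.mem_subtype]
    exact ⟨hy, hy0⟩

end HQB
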