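import Pool.Agent.HQB.Base

set_option autoImplicit false
set_option linter.unusedVariables false

/-!
# [HQB-Grw] the growth of Hankel determinants
-/

namespace HQB

/-- Proof. `Matrix.det_apply`: at most `n!` terms `∏_i |g (σ i + i)| ≤ A ^ n * β ^ ∑_i (σ i + i) = A ^ n * β ^ (n (n - 1))`
(`Equiv.sum_comp`, `Finset.sum_range_id_mul_two`, `Fintype.card_perm`). -/
theorem hk_le (g : ℕ → ℤ) (A β : ℕ) (h : ∀ k, |g k| ≤ A * (β : ℤ) ^ k) (n : ℕ) :
    |hk g n| ≤ n.factorial * (A : ℤ) ^ n * (β : ℤ) ^ (n * (n - 1)) := by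
  unfold hk
  rw [Matrix.det_apply]
  have e : ∀ σ : Equiv.Perm (Fin n), ∑ i : Fin n, (((σ i : Fin n) : ℕ) + (i : ℕ)) = n * (n - 1) := by
    intro σ
    rw [Finset.sum_add_distrib, Equiv.sum_comp σ (fun i : Fin n => (i : ℕ)),
      ← Finset.sum_range (fun i => i), ← Finset.sum_range_id_mul_two]
    ring
  refine (Finset.abs_sum_le_sum_abs _ _).trans ?_
  have key : ∀ σ ∈ (Finset.univ : Finset (Equiv.Perm (Fin n))),
      |Equiv.Perm.sign σ • ∏ i, (Matrix.of fun i j : Fin n => g (i + j)) (σ i) i| ≤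
        (A : ℤ) ^ n * (β : ℤ) ^ (n * (n - 1)) := by
    intro σ _
    have h1 : |Equiv.Perm.sign σ • ∏ i, (Matrix.of fun i j : Fin n => g (i + j)) (σ i) i| =
        ∏ i : Fin n, |g (((σ i : Fin n) : ℕ) + (i : ℕ))| := by
      rcases Int.units_eq_one_or (Equiv.Perm.sign σ) with h1 | h1
      · rw [h1, one_smul, Finset.abs_prod]; rfl
      · rw [h1, Units.neg_smul, one_smul, abs_neg, Finset.abs_prod]; rfl
    rw [h1]
    calc ∏ i : Fin n, |g (((σ i : Fin n) : ℕ) + (i : ℕ))|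
        ≤ ∏ i : Fin n, ((A : ℤ) * (β : ℤ) ^ (((σ i : Fin n) : ℕ) + (i : ℕ))) :=
          Finset.prod_le_prod (fun i _ => abs_nonneg _) (fun i _ => h _)
      _ = (A : ℤ) ^ n * (β : ℤ) ^ (n * (n - 1)) := by
          rw [Finset.prod_mul_distrib, Finset.prod_const, Finset.prod_pow_eq_pow_sum, e σ,
            Finset.card_univ, Fintype.card_fin]
  refine (Finset.sum_le_card_nsmul _ _ _ key).trans ?_
  rw [Finset.card_univ, Fintype.card_perm, Fintype.card_fin, nsmul_eq_mul, mul_assoc]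

theorem grw_E (n s : ℕ) (hs : 0 < s) :
    (n : ℝ) * (n - 1) / s - 2 * n ≤ ((∑ i ∈ Finset.range n, 2 * (i / s) : ℕ) : ℝ) := by
  have hs' : (0 : ℝ) < s := by exact_mod_cast hs
  have h1 : ∀ i ∈ Finset.range n, (2 * ((i : ℝ) / s) - 2) ≤ ((2 * (i / s) : ℕ) : ℝ) := by
    intro i _
    have h2 : i < s * (i / s + 1) := Nat.lt_mul_div_succ i hs
    have h3 : (i : ℝ) < s * (((i / s : ℕ) : ℝ) + 1) := by exact_mod_cast h2
    have h4 : (i : ℝ) / s < ((i / s : ℕ) : ℝ) + 1 := by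
      rw [div_lt_iff₀ hs']; linarith
    push_cast
    linarith
  have h5 := Finset.sum_le_sum h1
  have h6 : ∑ i ∈ Finset.range n, (2 * ((i : ℝ) / s) - 2) = (n : ℝ) * (n - 1) / s - 2 * n := by
    rw [Finset.sum_sub_distrib, ← Finset.mul_sum, ← Finset.sum_div, Finset.sum_const,
      Finset.card_range, nsmul_eq_mul]
    have h7 : ∀ m : ℕ, (∑ i ∈ Finset.range m, (i : ℝ)) * 2 = m * (m - 1) := by
      intro m
      induction m with
      | zero => simp
      | succ m ih => rw [Finset.sum_range_succ, add_mul, ih]; push_cast; ring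
    have h8 := h7 n
    rw [← h8]; ring
  rw [h6] at h5
  rw [Nat.cast_sum]
  exact h5

/-- Proof. Let `H ≠ 0`. The prime powers are pairwise coprime, so `∏_{p ∈ 𝒫} p ^ E_p ∣ H ^ d`, `E_p = ∑_{i < n} 2 (i / (p - 1))`,
and `∑_p E_p log p ≤ d log |H| ≤ d (n log n + n log A + n (n - 1) log β)` (`n! ≤ n ^ n`). As `i / s ≥ (i - s + 1) / s ≥ i/s - 1` (real),
`E_p ≥ n (n - 1) / (p - 1) - 2 n`, and `log p ≥ 1` for `p ≥ 3`, so `∑_p E_p log p ≥ n (n - 1) ∑_p 1/p - 2 n ∑_p log p ≥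
n (n - 1) (d log β + 1) - 2 n ∑_p log p`. So `n - 1 ≤ d log n + d log A + 2 ∑_p log p`, false for large `n`. -/
theorem grw (d A β : ℕ) (hA : 1 ≤ A) (hβ : 1 ≤ β) (S : Finset ℕ)
    (hS : ∀ p ∈ S, p.Prime ∧ 3 ≤ p)
    (hsum : d * Real.log β + 1 ≤ ∑ p ∈ S, 1 / (p : ℝ)) : ∃ n₁ : ℕ, ∀ n ≥ n₁, ∀ H : ℤ,
    |H| ≤ n.factorial * (A : ℤ) ^ n * (β : ℤ) ^ (n * (n - 1)) →
    (∀ p ∈ S, (p : ℤ) ^ (∑ i ∈ Finset.range n, 2 * (i / (p - 1))) ∣ H ^ d) → H = 0 := by
  set L : ℝ := ∑ p ∈ S, Real.log p with hL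
  -- eventually `n - 1 > d log n + d log A + 2 L`
  have hev : ∀ᶠ n : ℕ in Filter.atTop,
      (d : ℝ) * Real.log n + d * Real.log A + 2 * L < n - 1 := by
    have h1 := (Real.isLittleO_log_id_atTop.bound
      (show (0 : ℝ) < 1 / (2 * (d + 1)) by positivity))
    have h2 := tendsto_natCast_atTop_atTop (R := ℝ) |>.eventually h1
    have h3 : ∀ᶠ n : ℕ in Filter.atTop, 2 * (d * Real.log A + 2 * L + 1) < n :=
      tendsto_natCast_atTop_atTop.eventually_gt_atTop _
    filter_upwards [h2, h3, Filter.eventually_ge_atTop 1] with n hn1 hn2 hn3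
    simp only [id, Real.norm_eq_abs, Nat.abs_cast] at hn1
    have h4 : Real.log n ≤ 1 / (2 * (d + 1)) * n := (le_abs_self _).trans hn1
    have h5 : (d : ℝ) * Real.log n ≤ n / 2 := by
      calc (d : ℝ) * Real.log n ≤ (d : ℝ) * (1 / (2 * (d + 1)) * n) :=
            mul_le_mul_of_nonneg_left h4 (Nat.cast_nonneg _)
        _ = (d / (d + 1)) * (n / 2) := by field_simp
        _ ≤ 1 * (n / 2) := by
            refine mul_le_mul_of_nonneg_right ?_ (by positivity)
            rw [div_le_one (by positivity)]; linarith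
        _ = n / 2 := one_mul _
    linarith
  obtain ⟨n₁, hn₁⟩ := Filter.eventually_atTop.mp hev
  refine ⟨max n₁ 1, fun n hn H hH hdiv => ?_⟩
  by_contra hH0
  have hn1 : 1 ≤ n := (le_max_right _ _).trans hn
  have hlt := hn₁ n ((le_max_left _ _).trans hn)
  have hnpos : (0 : ℝ) < n := by exact_mod_cast hn1
  -- the product divides
  have hprod : (∏ p ∈ S, (p : ℤ) ^ (∑ i ∈ Finset.range n, 2 * (i / (p - 1)))) ∣ H ^ d := by
    refine Finset.prod_dvd_of_coprime ?_ hdiv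
    intro p hp q hq hpq
    refine IsCoprime.pow ?_
    rw [Nat.isCoprime_iff_coprime]
    exact (Nat.coprime_primes (hS p hp).1 (hS q hq).1).mpr hpq
  have hHd : H ^ d ≠ 0 := pow_ne_zero _ hH0
  have hle : ∏ p ∈ S, (p : ℝ) ^ (∑ i ∈ Finset.range n, 2 * (i / (p - 1))) ≤ |(H : ℝ)| ^ d := by
    have h1 := Int.le_of_dvd (abs_pos.mpr hHd) ((dvd_abs _ _).mpr hprod)
    rw [abs_pow] at h1
    exact_mod_cast h1
  have hSpos : ∀ p ∈ S, (0 : ℝ) < p := fun p hp => by
    exact_mod_cast (hS p hp).1.pos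
  have hlog1 : ∑ p ∈ S, ((∑ i ∈ Finset.range n, 2 * (i / (p - 1)) : ℕ) : ℝ) * Real.log p ≤
      d * Real.log |(H : ℝ)| := by
    have h1 := Real.log_le_log (Finset.prod_pos fun p hp => pow_pos (hSpos p hp) _) hle
    rw [Real.log_pow, Real.log_prod (fun p hp => (pow_pos (hSpos p hp) _).ne')] at h1
    simpa only [Real.log_pow] using h1
  -- upper bound of log |H|
  have hHpos : (0 : ℝ) < |(H : ℝ)| := abs_pos.mpr (by exact_mod_cast hH0)
  have hApos : (0 : ℝ) < A := by exact_mod_cast hA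
  have hβpos : (0 : ℝ) < β := by exact_mod_cast hβ
  have hlog2 : Real.log |(H : ℝ)| ≤ n * Real.log n + n * Real.log A + n * (n - 1) * Real.log β := by
    have h1 : |(H : ℝ)| ≤ (n : ℝ) ^ n * (A : ℝ) ^ n * (β : ℝ) ^ (n * (n - 1)) := by
      have h2 : |(H : ℝ)| ≤ (n.factorial : ℝ) * (A : ℝ) ^ n * (β : ℝ) ^ (n * (n - 1)) := by
        exact_mod_cast hH
      refine h2.trans ?_
      have h3 : (n.factorial : ℝ) ≤ (n : ℝ) ^ n := by exact_mod_cast Nat.factorial_le_pow n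
      gcongr
    have h4 := Real.log_le_log hHpos h1
    rw [Real.log_mul (by positivity) (by positivity), Real.log_mul (by positivity) (by positivity),
      Real.log_pow, Real.log_pow, Real.log_pow, Nat.cast_mul, Nat.cast_sub hn1, Nat.cast_one] at h4
    exact h4
  -- lower bound
  have hlow : ∀ p ∈ S, (n : ℝ) * (n - 1) * (1 / (p : ℝ)) - 2 * n * Real.log p ≤
      ((∑ i ∈ Finset.range n, 2 * (i / (p - 1)) : ℕ) : ℝ) * Real.log p := by
    intro p hp
    have hp3 := (hS p hp).2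
    have hlogp : 1 ≤ Real.log p := by
      rw [Real.le_log_iff_exp_le (hSpos p hp)]
      have h1 : Real.exp 1 < 3 := by
        have := Real.exp_one_lt_d9
        linarith
      have h2 : (3 : ℝ) ≤ p := by exact_mod_cast hp3
      linarith
    have h1 := grw_E n (p - 1) (by omega)
    have h2 := mul_le_mul_of_nonneg_right h1 (by linarith : 0 ≤ Real.log (p : ℝ))
    refine le_trans ?_ h2
    have hp1 : ((p - 1 : ℕ) : ℝ) = (p : ℝ) - 1 := by
      rw [Nat.cast_sub (by omega)]; simp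
    rw [hp1, sub_mul]
    have hn0 : (0 : ℝ) ≤ n * (n - 1) := by
      have : (1 : ℝ) ≤ n := by exact_mod_cast hn1
      exact mul_nonneg hnpos.le (by linarith)
    have hp2 : (3 : ℝ) ≤ p := by exact_mod_cast hp3
    have h3 : (n : ℝ) * (n - 1) * (1 / (p : ℝ)) ≤ n * (n - 1) / ((p : ℝ) - 1) * Real.log p := by
      calc (n : ℝ) * (n - 1) * (1 / (p : ℝ)) ≤ n * (n - 1) * (1 / ((p : ℝ) - 1)) := by
            refine mul_le_mul_of_nonneg_left ?_ hn0
            exact one_div_le_one_div_of_le (by linarith) (by linarith)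
        _ = n * (n - 1) / ((p : ℝ) - 1) * 1 := by ring
        _ ≤ n * (n - 1) / ((p : ℝ) - 1) * Real.log p := by
            refine mul_le_mul_of_nonneg_left hlogp ?_
            exact div_nonneg hn0 (by linarith)
    linarith
  have hsumlow := Finset.sum_le_sum hlow
  rw [Finset.sum_sub_distrib, ← Finset.mul_sum, ← Finset.mul_sum, ← hL] at hsumlow
  have hn0 : (0 : ℝ) ≤ n * (n - 1) := by
    have : (1 : ℝ) ≤ n := by exact_mod_cast hn1
    exact mul_nonneg hnpos.le (by linarith)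
  have h1 := mul_le_mul_of_nonneg_left hsum hn0
  have h2 := mul_le_mul_of_nonneg_left hlog2 (Nat.cast_nonneg d : (0 : ℝ) ≤ d)
  have h3 : (n : ℝ) * (n - 1) ≤ n * (d * Real.log n + d * Real.log A + 2 * L) := by
    nlinarith [h1, h2, hsumlow, hlog1]
  have h4 := le_of_mul_le_mul_left h3 hnpos
  linarith

end HQB
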