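import Pool.Agent.WGS.Ep3
import Pool.Agent.WGS.Sha

set_option autoImplicit false
set_option linter.unusedVariables false

/-!
# [HQB-Itl] interlacing, integral values
-/

namespace HQB

open WGS

/-- Proof. `G n = y ((n - r) / T)` if `r ≤ n` and `T ∣ n - r`, otherwise `0`. By `lrs_tail` it is enough that `H k = G (k + r)` is a linear recurrence
sequence; `H k = y (k / T)` if `T ∣ k`, otherwise `0`. If `∑_{i ≤ d} c i * y (n + i) = 0` for all `n`, `c d ≠ 0`, then `H` satisfies the recurrence of order `T d`
with coefficients `c' (T i) = c i`, `c' j = 0` for `T ∤ j`: `∑_{j ≤ T d} c' j * H (k + j) = ∑_{i ≤ d} c i * H (k + T i)`, which is `0` if `T ∤ k` and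
`∑ c i * y (k / T + i) = 0` otherwise. -/
theorem itl (T r : ℕ) (hT : 1 ≤ T) (y : ℕ → ℂ) (hy : IsLRS y) :
    ∃ G : ℕ → ℂ, IsLRS G ∧ ∀ k, G (r + T * k) = y k := by
  classical
  obtain ⟨d, c, hcd, hrec⟩ := hy
  refine ⟨fun n => if r ≤ n ∧ T ∣ n - r then y ((n - r) / T) else 0, ?_, fun k => ?_⟩
  · refine lrs_tail r ?_
    have hfun : (fun k => if r ≤ k + r ∧ T ∣ k + r - r then y ((k + r - r) / T) else 0) =
        fun k => if T ∣ k then y (k / T) else 0 := by
      funext k
      simp only [Nat.add_sub_cancel, Nat.le_add_left, true_and]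
    rw [hfun]
    refine ⟨T * d, fun j => if T ∣ j then c (j / T) else 0, ?_, fun n => ?_⟩
    · simp only [dvd_mul_right, if_true]
      rw [Nat.mul_div_cancel_left d (by omega)]
      exact hcd
    · have h1 : ∑ j ∈ Finset.range (T * d + 1), (if T ∣ j then c (j / T) else 0) *
          (if T ∣ n + j then y ((n + j) / T) else 0) =
          ∑ i ∈ Finset.range (d + 1), c i * (if T ∣ n + T * i then y ((n + T * i) / T) else 0) := by
        have himg : (Finset.range (d + 1)).image (fun i => T * i) ⊆ Finset.range (T * d + 1) := by
          intro j hj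
          obtain ⟨i, hi, rfl⟩ := Finset.mem_image.1 hj
          have h2 := Finset.mem_range.1 hi
          refine Finset.mem_range.2 ?_
          have : T * i ≤ T * d := Nat.mul_le_mul_left T (by omega)
          omega
        rw [← Finset.sum_subset himg]
        · rw [Finset.sum_image]
          · refine Finset.sum_congr rfl fun i _ => ?_
            rw [if_pos (dvd_mul_right T i), Nat.mul_div_cancel_left i (by omega)]
          · intro a _ a' _ haa
            exact Nat.eq_of_mul_eq_mul_left (by omega) haa
        · intro j hj hj'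
          rw [if_neg, zero_mul]
          rintro ⟨i, rfl⟩
          refine hj' (Finset.mem_image.2 ⟨i, Finset.mem_range.2 ?_, rfl⟩)
          have h2 := Finset.mem_range.1 hj
          have h3 : T * i ≤ T * d := by omega
          have h4 := Nat.le_of_mul_le_mul_left h3 (by omega)
          omega
      rw [h1]
      by_cases hn : T ∣ n
      · obtain ⟨k, rfl⟩ := hn
        rw [← hrec k]
        refine Finset.sum_congr rfl fun i _ => ?_
        rw [← mul_add, if_pos (dvd_mul_right T _), Nat.mul_div_cancel_left _ (by omega)]
      · refine Finset.sum_eq_zero fun i _ => ?_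
        rw [if_neg, mul_zero]
        intro h2
        exact hn ((Nat.dvd_add_left (dvd_mul_right T i)).1 h2)
  · show (if r ≤ r + T * k ∧ T ∣ r + T * k - r then y ((r + T * k - r) / T) else 0) = y k
    rw [if_pos, Nat.add_sub_cancel_left, Nat.mul_div_cancel_left k (by omega)]
    exact ⟨Nat.le_add_right _ _, by rw [Nat.add_sub_cancel_left]; exact dvd_mul_right T k⟩

end HQB
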