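import Pool.Agent.HQB.Base

set_option autoImplicit false
set_option linter.unusedVariables false

/-!
# [HQB-Kro] Kronecker's criterion for linear recurrences
-/

namespace HQB

open Polynomial

/-- the functional `X ^ k ↦ g k` -/
private noncomputable def kroL (g : ℕ → ℤ) : ℚ[X] →ₗ[ℚ] ℚ :=
  Polynomial.lsum (fun k => ((g k : ℤ) : ℚ) • (LinearMap.id : ℚ →ₗ[ℚ] ℚ))

private theorem kroL_mono (g : ℕ → ℤ) (a : ℚ) (k : ℕ) : kroL g (C a * X ^ k) = a * (g k : ℚ) := by
  unfold kroL
  rw [Polynomial.lsum_apply, C_mul_X_pow_eq_monomial, Polynomial.sum_monomial_index]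
  · simp [mul_comm]
  · simp

private theorem kroL_sum (g : ℕ → ℤ) (A : ℚ[X]) (n k : ℕ) (hA : A.degree < n) :
    kroL g (A * X ^ k) = ∑ j ∈ Finset.range n, A.coeff j * (g (k + j) : ℚ) := by
  rcases eq_or_ne A 0 with h0 | h0
  · simp [h0]
  have h1 : A.natDegree < n := (Polynomial.natDegree_lt_iff_degree_lt h0).2 hA
  conv_lhs => rw [Polynomial.as_sum_range_C_mul_X_pow' A h1]
  rw [Finset.sum_mul, map_sum]
  refine Finset.sum_congr rfl fun j _ => ?_
  rw [mul_assoc, ← pow_add, kroL_mono, add_comm j k]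

/-- vanishing against all polynomials of small degree -/
private theorem kroL_zero (g : ℕ → ℤ) (A Q : ℚ[X]) (n : ℕ) (h : ∀ i < n, kroL g (A * X ^ i) = 0)
    (hQ : Q.degree < n) : kroL g (A * Q) = 0 := by
  rcases eq_or_ne Q 0 with h0 | h0
  · simp [h0]
  have h1 : Q.natDegree < n := (Polynomial.natDegree_lt_iff_degree_lt h0).2 hQ
  rw [Polynomial.as_sum_range_C_mul_X_pow' Q h1, Finset.mul_sum, map_sum]
  refine Finset.sum_eq_zero fun j hj => ?_
  have e : A * (C (Q.coeff j) * X ^ j) = (Q.coeff j) • (A * X ^ j) := by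
    rw [Polynomial.smul_eq_C_mul]
    ring
  rw [e, map_smul, h j (Finset.mem_range.1 hj), smul_zero]

/-- nondegeneracy -/
private def kroN (g : ℕ → ℤ) (n : ℕ) : Prop :=
  ∀ A : ℚ[X], A.degree < n → (∀ i < n, kroL g (A * X ^ i) = 0) → A = 0

private theorem kro_det (g : ℕ → ℤ) (n : ℕ) :
    (hk g n : ℚ) = (Matrix.of fun i j : Fin n => ((g (i + j) : ℤ) : ℚ)).det := by
  unfold hk
  have h := RingHom.map_det (Int.castRingHom ℚ) (Matrix.of fun i j : Fin n => g (i + j))
  rw [eq_intCast] at h
  rw [h]
  rfl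

private theorem kro_N (g : ℕ → ℤ) (n : ℕ) : hk g n ≠ 0 ↔ kroN g n := by
  have hdet := kro_det g n
  constructor
  · intro hne A hA hi
    have hne' : (Matrix.of fun i j : Fin n => ((g (i + j) : ℤ) : ℚ)).det ≠ 0 := by
      rw [← hdet]
      exact_mod_cast hne
    have hv : (fun j : Fin n => A.coeff j) = 0 := by
      by_contra hv
      apply hne'
      rw [← Matrix.exists_mulVec_eq_zero_iff]
      refine ⟨_, hv, ?_⟩
      ext i
      have h1 := hi i i.2
      rw [kroL_sum g A n i hA, ← Fin.sum_univ_eq_sum_range (fun j => A.coeff j * (g (i + j) : ℚ)) n] at h1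
      rw [Matrix.mulVec, dotProduct, Pi.zero_apply, ← h1]
      refine Finset.sum_congr rfl fun j _ => ?_
      rw [Matrix.of_apply, mul_comm]
    ext j
    rw [Polynomial.coeff_zero]
    rcases lt_or_ge j n with hj | hj
    · exact congrFun hv ⟨j, hj⟩
    · exact Polynomial.coeff_eq_zero_of_degree_lt (lt_of_lt_of_le hA (by exact_mod_cast hj))
  · intro hN h0
    have h0' : (Matrix.of fun i j : Fin n => ((g (i + j) : ℤ) : ℚ)).det = 0 := by
      rw [← hdet, h0]
      simp
    obtain ⟨v, hv, hmv⟩ := Matrix.exists_mulVec_eq_zero_iff.2 h0'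
    apply hv
    set A : ℚ[X] := ∑ j : Fin n, C (v j) * X ^ (j : ℕ) with hA
    have hcoef : ∀ j : Fin n, A.coeff j = v j := by
      intro j
      rw [hA, Polynomial.finsetSum_coeff]
      simp only [coeff_C_mul_X_pow]
      rw [Finset.sum_eq_single j]
      · simp
      · intro b _ hb
        rw [if_neg]
        intro h
        exact hb (Fin.ext h.symm)
      · intro h
        exact absurd (Finset.mem_univ j) h
    have hdeg : A.degree < n := by
      rw [hA]
      refine lt_of_le_of_lt (Polynomial.degree_sum_le _ _) ?_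
      rw [Finset.sup_lt_iff (by exact WithBot.bot_lt_coe n)]
      intro j _
      refine lt_of_le_of_lt (Polynomial.degree_C_mul_X_pow_le _ _) ?_
      exact_mod_cast j.2
    have hA0 := hN A hdeg (by
      intro i hi
      rw [kroL_sum g A n i hdeg, ← Fin.sum_univ_eq_sum_range (fun j => A.coeff j * (g (i + j) : ℚ)) n]
      have h1 := congrFun hmv ⟨i, hi⟩
      rw [Matrix.mulVec, dotProduct, Pi.zero_apply] at h1
      rw [← h1]
      refine Finset.sum_congr rfl fun j _ => ?_
      rw [Matrix.of_apply, hcoef, mul_comm])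
    ext j
    rw [← hcoef j, hA0]
    simp

/-- Proof. `hk g 0 = 1`, so there is a largest `m` with `hk g m ≠ 0`. Let `Λ : ℚ[X] →ₗ[ℚ] ℚ` with `Λ (X ^ k) = g k`
(`Polynomial.lsum` or `A ↦ A.sum fun k a => a * g k`). For every `n`: `hk g n ≠ 0` iff (N) the only `A ∈ ℚ[X]` of degree
`< n` with `Λ (A * X ^ i) = 0` for all `i < n` is `0` (`Matrix.exists_mulVec_eq_zero_iff`, the matrix over `ℚ`; its determinant is the cast of
`hk g n`). By (N) for `m` (and surjectivity: the matrix is invertible) there is a monic `C` of degree `m` with `Λ (C * X ^ i) = 0` for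
`i < m`; as `hk g (m + 1) = 0` there is `A ≠ 0` of degree `≤ m` with `Λ (A * X ^ i) = 0` for `i ≤ m`; by (N) for `m` its degree is `m`,
so one may take for `C` the monic multiple of `A`: `Λ (C X ^ i) = 0` for `i ≤ m`. Claim: `Λ (C * X ^ i) = 0` for all `i`, by strong
induction. Let it hold for all `i < m + t`, `t ≥ 1`, and `λ = Λ (C * X ^ (m + t)) ≠ 0`. Show (N) for `n = m + t + 1`: let
`deg A ≤ m + t`, `Λ (A * X ^ i) = 0` for `i ≤ m + t`, so `Λ (A * Q) = 0` for `deg Q ≤ m + t`. Divide: `A = C * U + R`, `deg R < m` (`Polynomial.modByMonic`),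
`deg U ≤ t`. For `i < m`: `0 = Λ (C U X ^ i) + Λ (R X ^ i)` and `Λ (C U X ^ i) = 0` because `deg (U X ^ i) < m + t`. By (N) for `m`, `R = 0`.
If `U ≠ 0`, `u = deg U`, take `Q = X ^ (m + t - u)`: `0 = Λ (C U Q) = U.leadingCoeff * λ + 0`, contradiction. So `hk g (m + t + 1) ≠ 0`,
against the choice of `m`. Finally `c j = C.coeff j`. -/
theorem kro (g : ℕ → ℤ) (n₁ : ℕ) (h : ∀ n, n₁ ≤ n → hk g n = 0) :
    ∃ (m : ℕ) (c : ℕ → ℚ), c m = 1 ∧
      ∀ k, ∑ j ∈ Finset.range (m + 1), c j * (g (k + j) : ℚ) = 0 := by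
  classical
  have hk0 : hk g 0 ≠ 0 := by
    unfold hk
    simp
  set m := Nat.findGreatest (fun n => hk g n ≠ 0) n₁ with hm
  have hkm : hk g m ≠ 0 := Nat.findGreatest_spec (P := fun n => hk g n ≠ 0) (Nat.zero_le n₁) hk0
  have hgt : ∀ n, m < n → hk g n = 0 := by
    intro n hn
    rcases le_or_gt n n₁ with h1 | h1
    · by_contra h2
      exact Nat.findGreatest_is_greatest hn h1 h2
    · exact h n h1.le
  have hNm : kroN g m := (kro_N g m).1 hkm
  -- the minimal polynomial
  have hnN : ¬ kroN g (m + 1) := by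
    rw [← kro_N]
    exact fun h => h (hgt (m + 1) (Nat.lt_succ_self m))
  unfold kroN at hnN
  push Not at hnN
  obtain ⟨A, hA1, hA2, hA0⟩ := hnN
  have hAdeg : A.natDegree = m := by
    have h1 : A.natDegree < m + 1 := (Polynomial.natDegree_lt_iff_degree_lt hA0).2 hA1
    by_contra h2
    apply hA0
    apply hNm A ((Polynomial.natDegree_lt_iff_degree_lt hA0).1 (by omega))
    intro i hi
    exact hA2 i (by omega)
  set B : ℚ[X] := C (A.leadingCoeff⁻¹) * A with hB
  have hlc : A.leadingCoeff ≠ 0 := Polynomial.leadingCoeff_ne_zero.2 hA0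
  have hBmon : B.Monic := by
    rw [hB, Polynomial.Monic, Polynomial.leadingCoeff_mul, Polynomial.leadingCoeff_C]
    exact inv_mul_cancel₀ hlc
  have hBdeg : B.natDegree = m := by
    rw [hB, Polynomial.natDegree_C_mul (inv_ne_zero hlc), hAdeg]
  have hBle : ∀ i < m + 1, kroL g (B * X ^ i) = 0 := by
    intro i hi
    have e : B * X ^ i = (A.leadingCoeff⁻¹) • (A * X ^ i) := by
      rw [hB, Polynomial.smul_eq_C_mul]
      ring
    rw [e, map_smul, hA2 i hi, smul_zero]
  have hBne : B ≠ 0 := hBmon.ne_zero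
  have hBdeg' : B.degree = (m : WithBot ℕ) := by
    rw [Polynomial.degree_eq_natDegree hBne, hBdeg]
  have hall : ∀ i, kroL g (B * X ^ i) = 0 := by
    intro i
    induction i using Nat.strong_induction_on with
    | _ i ih =>
    rcases Nat.lt_or_ge i (m + 1) with hi | hi
    · exact hBle i hi
    by_contra hne
    have hnot : ¬ kroN g (i + 1) := by
      rw [← kro_N]
      exact fun h => h (hgt (i + 1) (by omega))
    apply hnot
    intro P hP hPi
    set U := P /ₘ B with hU
    set R := P %ₘ B with hR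
    have hdiv : R + B * U = P := Polynomial.modByMonic_add_div P B
    have hRdeg : R.degree < m := by
      rw [← hBdeg']
      exact Polynomial.degree_modByMonic_lt P hBmon
    have hPn : P.natDegree ≤ i := by
      rcases eq_or_ne P 0 with h0 | h0
      · simp [h0]
      · have := (Polynomial.natDegree_lt_iff_degree_lt h0).2 hP
        omega
    have hUn : U.natDegree ≤ i - m := by
      rw [hU, Polynomial.natDegree_divByMonic P hBmon, hBdeg]
      omega
    have hR0 : R = 0 := by
      apply hNm R hRdeg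
      intro j hj
      have h1 : kroL g (B * (U * X ^ j)) = 0 := by
        apply kroL_zero g B _ i ih
        rcases eq_or_ne (U * X ^ j) 0 with h0 | h0
        · rw [h0, Polynomial.degree_zero]
          exact WithBot.bot_lt_coe i
        · apply (Polynomial.natDegree_lt_iff_degree_lt h0).1
          have h2 : (U * X ^ j).natDegree ≤ U.natDegree + j := by
            refine Polynomial.natDegree_mul_le.trans ?_
            rw [Polynomial.natDegree_X_pow]
          omega
      have h2 := hPi j (by omega)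
      rw [← hdiv, add_mul, mul_assoc, map_add, h1, add_zero] at h2
      exact h2
    by_contra hP0
    have hU0 : U ≠ 0 := by
      intro h0
      apply hP0
      rw [← hdiv, hR0, h0]
      simp
    set V := U * X ^ (i - U.natDegree) with hV
    have hV0 : V ≠ 0 := mul_ne_zero hU0 (pow_ne_zero _ Polynomial.X_ne_zero)
    have hVn : V.natDegree = i := by
      rw [hV, Polynomial.natDegree_mul hU0 (pow_ne_zero _ Polynomial.X_ne_zero), Polynomial.natDegree_X_pow]
      omega
    have hVl : V.leadingCoeff = U.leadingCoeff := by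
      rw [hV, Polynomial.leadingCoeff_mul, Polynomial.leadingCoeff_X_pow, mul_one]
    have h1 : kroL g (P * X ^ (i - U.natDegree)) = 0 := by
      apply hPi
      omega
    have h2 : P * X ^ (i - U.natDegree) = B * V := by
      rw [← hdiv, hR0, hV]
      ring
    have h3 := Polynomial.eraseLead_add_C_mul_X_pow V
    have h4 : kroL g (B * V.eraseLead) = 0 := by
      apply kroL_zero g B _ i ih
      have h5 := Polynomial.degree_eraseLead_lt hV0
      rw [Polynomial.degree_eq_natDegree hV0, hVn] at h5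
      exact h5
    rw [h2, ← h3, mul_add, map_add, h4, zero_add, hVn, hVl] at h1
    have e : B * (C U.leadingCoeff * X ^ i) = U.leadingCoeff • (B * X ^ i) := by
      rw [Polynomial.smul_eq_C_mul]
      ring
    rw [e, map_smul, smul_eq_mul] at h1
    rcases mul_eq_zero.1 h1 with h5 | h5
    · exact hU0 (Polynomial.leadingCoeff_eq_zero.1 h5)
    · exact hne h5
  refine ⟨m, fun j => B.coeff j, ?_, ?_⟩
  · show B.coeff m = 1
    rw [← hBdeg]
    exact hBmon
  · intro k
    have h1 := hall k
    rw [kroL_sum g B (m + 1) k (by rw [hBdeg']; exact_mod_cast Nat.lt_succ_self m)] at h1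
    exact h1

end HQB
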