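import Mathlib

set_option autoImplicit false
set_option linter.unusedVariables false

/-!
# [HQB-Kum1] the Kummer extension of a natural number
-/

namespace HQB

open NumberField Polynomial

/-- Proof. `X ^ q - C b` is irreducible over `F` (`X_pow_sub_C_irreducible_of_prime`). `N` its splitting field
(`Polynomial.SplittingField`, in `Type`; a number field: char zero, `FiniteDimensional ℚ N` by transitivity). Kummer theory in Mathlib
(`Mathlib/FieldTheory/KummerExtension.lean`: `isGalois_of_isSplittingField_X_pow_sub_C`,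
`isCyclic_of_isSplittingField_X_pow_sub_C`, `finrank_of_isSplittingField_X_pow_sub_C`, with the primitive root `ζ`). A generator
`σ` of the cyclic group of order `q`; it does not fix the root `β`, because `β ∉ F` (the fixed field of `zpowers σ = ⊤` is `F`,
`β ∈ F` contradicts `hbq`). -/
theorem kum_ext (F : Type) [Field F] [NumberField F] (q : ℕ) (hq : q.Prime) (ζ : F)
    (hζ : IsPrimitiveRoot ζ q) (b : ℕ) (hbq : ∀ β : F, β ^ q ≠ b) :
    ∃ (N : Type) (_ : Field N) (_ : NumberField N) (_ : Algebra F N) (_ : IsGalois F N)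
      (σ : N ≃ₐ[F] N) (β : N), (∀ τ : N ≃ₐ[F] N, τ ∈ Subgroup.zpowers σ) ∧ orderOf σ = q ∧
        β ^ q = b ∧ σ β ≠ β := by
  have H : Irreducible (X ^ q - C (b : F)) := X_pow_sub_C_irreducible_of_prime hq hbq
  have hprim : (primitiveRoots q F).Nonempty := ⟨ζ, (mem_primitiveRoots hq.pos).mpr hζ⟩
  have : NeZero q := ⟨hq.ne_zero⟩
  have hb0 : (b : F) ≠ 0 := by
    intro h
    exact hbq 0 (by rw [h, zero_pow hq.ne_zero])
  let N := (X ^ q - C (b : F)).SplittingField
  have : CharZero N := charZero_of_injective_algebraMap (algebraMap F N).injective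
  have : FiniteDimensional F N := Polynomial.IsSplittingField.finiteDimensional N (X ^ q - C (b : F))
  have : FiniteDimensional ℚ N := Module.Finite.trans F N
  have hN : NumberField N := ⟨⟩
  have hG : IsGalois F N := isGalois_of_isSplittingField_X_pow_sub_C hprim H N
  let β : N := rootOfSplitsXPowSubC (NeZero.pos q) (b : F) N
  have hβ : β ^ q = algebraMap F N (b : F) := rootOfSplitsXPowSubC_pow (b : F) N
  let e := autEquivZmod H N hζ
  refine ⟨N, inferInstance, hN, inferInstance, hG, e.symm (Multiplicative.ofAdd 1), β, ?_, ?_, ?_, ?_⟩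
  · intro τ
    refine Subgroup.mem_zpowers_iff.mpr ⟨((e τ).toAdd.val : ℤ), ?_⟩
    rw [zpow_natCast, ← map_pow, ← ofAdd_nsmul, nsmul_eq_mul, mul_one, ZMod.natCast_zmod_val]
    exact e.symm_apply_apply τ
  · rw [MulEquiv.orderOf_eq e.symm, orderOf_ofAdd_eq_addOrderOf, ZMod.addOrderOf_one]
  · rw [hβ, map_natCast]
  · have h1 := autEquivZmod_symm_apply_natCast H N hβ hζ 1
    rw [Nat.cast_one, pow_one] at h1
    rw [h1]
    intro h2
    have hβ0 : β ≠ 0 := by
      intro h
      rw [h, zero_pow hq.ne_zero] at hβ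
      exact hb0 ((map_eq_zero (algebraMap F N)).mp hβ.symm)
    rw [Algebra.smul_def] at h2
    have h3 : algebraMap F N ζ = 1 := by
      have : algebraMap F N ζ * β = 1 * β := by rw [one_mul]; exact h2
      exact mul_right_cancel₀ hβ0 this
    have h4 : ζ = 1 := (algebraMap F N).injective (by rw [h3, map_one])
    have h5 := hζ.eq_orderOf
    rw [h4, orderOf_one] at h5
    exact hq.one_lt.ne' h5

end HQB
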