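import Pool.Agent.MP_c1dca2_ag.SC4.Y4

set_option autoImplicit false
set_option linter.unusedVariables false

/-!
# [HQB-Kum2] Frobenius and power residues
-/

namespace HQB

open NumberField SC4

theorem kum2_root {A : Type} [CommRing A] [IsDomain A] (q : ℕ) (hq : 0 < q) (R : Ideal A)
    [R.IsPrime] (z : A) (hz : IsPrimitiveRoot z q) (x y : A) (h : x ^ q - y ^ q ∈ R) :
    ∃ i, x - z ^ i * y ∈ R := by
  rw [hz.pow_sub_pow_eq_prod_sub_mul x y hq] at h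
  rw [Ideal.IsPrime.prod_mem_iff] at h
  obtain ⟨η, hη, hmem⟩ := h
  have h1 : η ^ q = 1 := (Polynomial.mem_nthRootsFinset hq 1).1 hη
  have : NeZero q := ⟨hq.ne'⟩
  obtain ⟨i, _, hi⟩ := hz.eq_pow_of_pow_eq_one h1
  exact ⟨i, by rw [hi]; exact hmem⟩

theorem kum2_fix {F N : Type} [Field F] [Field N] [Algebra F N] (σ : N ≃ₐ[F] N) (j : ℕ)
    (hj : Nat.Coprime j (orderOf σ)) (β : N) (h : (σ ^ j) β = β) : σ β = β := by
  obtain ⟨m, hm⟩ := exists_pow_eq_self_of_coprime hj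
  have h1 : ∀ k : ℕ, ((σ ^ j) ^ k) β = β := by
    intro k
    induction k with
    | zero => rw [pow_zero]; rfl
    | succ k ih =>
      rw [pow_succ, AlgEquiv.mul_apply, h, ih]
  calc σ β = ((σ ^ j) ^ m) β := by rw [hm]
    _ = β := h1 m

/-- Proof. `P ∈ T σ`: `p = absNorm P` is prime and there are a prime `R` of `𝓞 N` above `P` and `j` prime
to `orderOf σ = q` with
`FrobAt (σ ^ j) R p`, that is `y - x ^ p ∈ R` for all `x y ∈ 𝓞 N` with `y = (σ ^ j) x`. Suppose `p ∣ c ^ q - b`. Note `(p : 𝓞 N) ∈ R`, and `z ∈ ℤ ∩ R` implies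
`p ∣ z` (otherwise `1 ∈ R`). `β ∈ 𝓞 N` (root of a monic integral polynomial). `∏_{i < q} (β - ζ ^ i c) = β ^ q - c ^ q = b - c ^ q ∈ R`
(`IsPrimitiveRoot.pow_sub_pow_eq_prod_sub_mul`), so `β - ζ ^ i c ∈ R` for some `i`. Since `𝓞 F / P` has `p` elements, `x ^ p - x ∈ P` for `x ∈ 𝓞 F`
(compare `SC4.Y3_fermat`), so with `x = ζ ^ i c`: `β ^ p - β ∈ R`, and so `(σ ^ j) β - β ∈ R`. `(σ ^ j) β = ξ β` with `ξ ^ q = 1`, and `ξ ≠ 1`
(if `σ ^ j` fixes `β` so does `σ`, a power of `σ ^ j`); so `(ξ - 1) β ∈ R`. If `β ∈ R` then `b ∈ R`, `p ∣ b`; otherwise `ξ - 1 ∈ R`, and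
`q = ∏_{0 < i < q} (1 - ξ ^ i) ∈ R` (`ξ` is a primitive `q`-th root of unity in `N`; or: `∑_{i < q} ξ ^ i = 0` and `ξ ≡ 1 mod R` give `q ∈ R` directly),
so `p ∣ q`. Both contradict `hpb`. -/
theorem kum_frob {F N : Type} [Field F] [NumberField F] [Field N] [NumberField N] [Algebra F N]
    [IsGalois F N] (q : ℕ) (hq : q.Prime) (ζ : F) (hζ : IsPrimitiveRoot ζ q) (b : ℕ)
    (σ : N ≃ₐ[F] N) (hord : orderOf σ = q) (β : N) (hβ : β ^ q = b) (hσβ : σ β ≠ β)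
    (P : Ideal (𝓞 F)) (hP : P ∈ T σ) (hpb : ¬ Ideal.absNorm P ∣ q * b) (c : ℤ) :
    ¬ ((Ideal.absNorm P : ℕ) : ℤ) ∣ c ^ q - b := by
  intro hdvd
  obtain ⟨hP1, R, j, hR, hRP, hj, hfrob⟩ := hP
  set p := Ideal.absNorm P with hp
  have hpp : p.Prime := hP1
  have hpR : (p : 𝓞 N) ∈ R := by
    have h1 : (p : 𝓞 F) ∈ P := Ideal.absNorm_mem P
    rw [← hRP, Ideal.mem_comap, map_natCast] at h1
    exact h1
  have hzR : ∀ z : ℤ, (z : 𝓞 N) ∈ R → (p : ℤ) ∣ z := by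
    intro z hz
    by_contra hnd
    have hco : IsCoprime (p : ℤ) z :=
      (Nat.prime_iff_prime_int.1 hpp).coprime_iff_not_dvd.2 hnd
    obtain ⟨u, v, huv⟩ := hco
    apply hR.ne_top
    rw [Ideal.eq_top_iff_one]
    have h1 : (1 : 𝓞 N) = (u : 𝓞 N) * (p : 𝓞 N) + (v : 𝓞 N) * (z : 𝓞 N) := by
      have := congrArg (fun t : ℤ => (t : 𝓞 N)) huv
      push_cast at this
      exact this.symm
    rw [h1]
    exact R.add_mem (R.mul_mem_left _ hpR) (R.mul_mem_left _ hz)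
  -- integral elements
  have hβint : IsIntegral ℤ β := by
    refine IsIntegral.of_pow hq.pos ?_
    rw [hβ]
    exact isIntegral_algebraMap (R := ℤ) (A := N) (x := (b : ℤ)) |> fun h => by
      simpa using h
  let βO : 𝓞 N := ⟨β, hβint⟩
  have hβO : βO ^ q = (b : 𝓞 N) := by
    apply RingOfIntegers.coe_injective
    rw [map_pow, map_natCast]
    exact hβ
  let ζO : 𝓞 F := ⟨ζ, hζ.isIntegral hq.pos⟩
  have hζO : IsPrimitiveRoot ζO q :=
    IsPrimitiveRoot.of_map_of_injective (f := algebraMap (𝓞 F) F) (by exact hζ)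
      RingOfIntegers.coe_injective
  let ζN : 𝓞 N := algebraMap (𝓞 F) (𝓞 N) ζO
  have hζN : IsPrimitiveRoot ζN q :=
    hζO.map_of_injective (FaithfulSMul.algebraMap_injective (𝓞 F) (𝓞 N))
  -- `β ≡ ζ^i c`
  have hmem1 : βO ^ q - (c : 𝓞 N) ^ q ∈ R := by
    obtain ⟨t, ht⟩ := hdvd
    have h1 : βO ^ q - (c : 𝓞 N) ^ q = -(t : 𝓞 N) * (p : 𝓞 N) := by
      rw [hβO]
      have := congrArg (fun t : ℤ => (t : 𝓞 N)) ht
      push_cast at this
      linear_combination -this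
    rw [h1]
    exact R.mul_mem_left _ hpR
  obtain ⟨i, hi⟩ := kum2_root q hq.pos R ζN hζN βO (c : 𝓞 N) hmem1
  let x : 𝓞 F := ζO ^ i * (c : 𝓞 F)
  have hx : algebraMap (𝓞 F) (𝓞 N) x = ζN ^ i * (c : 𝓞 N) := by
    rw [map_mul, map_pow, map_intCast]
  have hx1 : (algebraMap (𝓞 F) (𝓞 N) x) ^ p - algebraMap (𝓞 F) (𝓞 N) x ∈ R := by
    have h1 := Y3_fermat P p hpp rfl x
    rw [← hRP, Ideal.mem_comap, map_sub, map_pow] at h1
    exact h1
  have hβp : βO ^ p - βO ∈ R := by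
    rw [hx] at hx1
    rw [← Ideal.Quotient.eq] at hi hx1 ⊢
    rw [map_pow, hi, ← map_pow, hx1]
  -- Frobenius
  have hyint : IsIntegral ℤ ((σ ^ j) β) := hβint.map (((σ ^ j : N ≃ₐ[F] N) : N →ₐ[F] N).restrictScalars ℤ)
  let y : 𝓞 N := ⟨(σ ^ j) β, hyint⟩
  have hy1 : y - βO ^ p ∈ R := hfrob βO y rfl
  have hy2 : y - βO ∈ R := by
    have := R.add_mem hy1 hβp
    have h2 : y - βO ^ p + (βO ^ p - βO) = y - βO := by ring
    rwa [h2] at this
  have hyq : y ^ q = βO ^ q := by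
    apply RingOfIntegers.coe_injective
    rw [map_pow, map_pow]
    show ((σ ^ j) β) ^ q = β ^ q
    rw [← map_pow, hβ, map_natCast]
  have hbot : (⊥ : Ideal (𝓞 N)).IsPrime := Ideal.isPrime_bot
  obtain ⟨i', hi'⟩ := kum2_root q hq.pos (⊥ : Ideal (𝓞 N)) ζN hζN y βO
    (by rw [hyq, sub_self]; exact Ideal.zero_mem _)
  rw [Ideal.mem_bot, sub_eq_zero] at hi'
  set η : 𝓞 N := ζN ^ i' with hη
  have hηq : η ^ q = 1 := by
    rw [hη, ← pow_mul, mul_comm, pow_mul, hζN.pow_eq_one, one_pow]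
  have hη1 : η ≠ 1 := by
    intro h
    rw [h, one_mul] at hi'
    apply hσβ
    apply kum2_fix σ j hj
    have := congrArg (fun z : 𝓞 N => (z : N)) hi'
    exact this
  have hprod : (η - 1) * βO ∈ R := by
    have : (η - 1) * βO = y - βO := by rw [hi']; ring
    rw [this]
    exact hy2
  rcases hR.mem_or_mem hprod with h | h
  · -- `η - 1 ∈ R`
    have hgs : (∑ k ∈ Finset.range q, η ^ k) = 0 := by
      have h1 := geom_sum_mul η q
      rw [hηq, sub_self] at h1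
      rcases mul_eq_zero.1 h1 with h2 | h2
      · exact h2
      · exact absurd (sub_eq_zero.1 h2) hη1
    have hqR : (q : 𝓞 N) ∈ R := by
      have h2 : ∑ k ∈ Finset.range q, (η ^ k - 1) ∈ R := by
        refine R.sum_mem fun k _ => ?_
        obtain ⟨t, ht⟩ := sub_one_dvd_pow_sub_one η k
        rw [ht]
        exact R.mul_mem_right _ h
      rw [Finset.sum_sub_distrib, hgs, Finset.sum_const, Finset.card_range, nsmul_eq_mul, mul_one,
        zero_sub] at h2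
      exact (R.neg_mem_iff).1 h2
    have h3 := hzR (q : ℤ) (by push_cast; exact hqR)
    exact hpb ((Int.natCast_dvd_natCast.1 h3).mul_right b)
  · have hbR : (b : 𝓞 N) ∈ R := by
      rw [← hβO]
      exact Ideal.pow_mem_of_mem R h q hq.pos
    have h3 := hzR (b : ℤ) (by push_cast; exact hbR)
    exact hpb ((Int.natCast_dvd_natCast.1 h3).mul_left q)

end HQB
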