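import Pool.Agent.HQB.Kum1
import Pool.Agent.HQB.Kum2

set_option autoImplicit false
set_option linter.unusedVariables false

/-!
# [HQB-Kum3] many good primes
-/

namespace HQB

open NumberField SC4 IsDedekindDomain

/-- Proof. `kum_ext`, then `SC4.not_summable σ hσ B'` (file SC4/Y4) with `B'` the union of the ideals of `B` and of the ideals `P` with
`absNorm P ∣ q * b` (finitely many ideals of each norm, `Ideal.finite_setOfPred_absNorm_eq`; `q * b > 0`): the sum of `1/p` over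
`{p | ∃ P ∈ T σ, P ∉ B', absNorm P = p}` diverges, so a finite subset has sum `≥ C` (`summable_of_sum_le` for nonnegative terms). Choose a `P` for
each `p` of it: `P` is a nonzero prime (`P1.isPrime`, `P1.ne_bot`), so a `HeightOneSpectrum`, and `kum_frob` applies. -/
theorem good_primes (F : Type) [Field F] [NumberField F] (q : ℕ) (hq : q.Prime) (ζ : F)
    (hζ : IsPrimitiveRoot ζ q) (b : ℕ) (hb : 1 ≤ b) (hbq : ∀ β : F, β ^ q ≠ b)
    (B : Set (HeightOneSpectrum (𝓞 F))) (hB : B.Finite) (C : ℝ) :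
    ∃ S : Finset (HeightOneSpectrum (𝓞 F)),
      (∀ v ∈ S, v ∉ B ∧ (Ideal.absNorm v.asIdeal).Prime ∧
        ∀ c : ℤ, ¬ ((Ideal.absNorm v.asIdeal : ℕ) : ℤ) ∣ c ^ q - b) ∧
      Set.InjOn (fun v : HeightOneSpectrum (𝓞 F) => Ideal.absNorm v.asIdeal) S ∧
      C ≤ ∑ v ∈ S, 1 / (Ideal.absNorm v.asIdeal : ℝ) := by
  classical
  obtain ⟨N, iN1, iN2, iN3, iN4, σ, β, hσ, hord, hβ, hσβ⟩ := kum_ext F q hq ζ hζ b hbq
  set B' : Set (Ideal (𝓞 F)) := (fun v : HeightOneSpectrum (𝓞 F) => v.asIdeal) '' B ∪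
    {P | Ideal.absNorm P ∣ q * b} with hB'def
  have hqb : q * b ≠ 0 := Nat.mul_ne_zero hq.ne_zero (by omega)
  have hfin2 : Set.Finite {P : Ideal (𝓞 F) | Ideal.absNorm P ∣ q * b} := by
    refine Set.Finite.subset (Set.Finite.biUnion (Finset.finite_toSet (q * b).divisors)
      (t := fun d => {P : Ideal (𝓞 F) | Ideal.absNorm P = d}) ?_) ?_
    · intro d hd
      exact Ideal.finite_setOfPred_absNorm_eq d
    · intro P hP
      rw [Set.mem_iUnion₂]
      exact ⟨Ideal.absNorm P, by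
        rw [Finset.mem_coe, Nat.mem_divisors]
        exact ⟨hP, hqb⟩, rfl⟩
  have hB' : B'.Finite := (hB.image _).union hfin2
  have hns := not_summable σ hσ B' hB'
  set Q : Set ℕ := {p : ℕ | ∃ P ∈ T σ, P ∉ B' ∧ Ideal.absNorm P = p} with hQdef
  have hU : ∃ U : Finset Q, C ≤ ∑ p ∈ U, ((p : ℕ) : ℝ)⁻¹ := by
    by_contra hcon
    push Not at hcon
    exact hns (summable_of_sum_le (fun p => inv_nonneg.2 (Nat.cast_nonneg _))
      (fun u => (hcon u).le))
  obtain ⟨U, hU⟩ := hU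
  have hch : ∀ p : Q, ∃ v : HeightOneSpectrum (𝓞 F), v.asIdeal ∈ T σ ∧ v.asIdeal ∉ B' ∧
      Ideal.absNorm v.asIdeal = p := by
    rintro ⟨p, P, hPT, hPB, hPp⟩
    exact ⟨⟨P, P1.isPrime hPT.1, P1.ne_bot hPT.1⟩, hPT, hPB, hPp⟩
  choose g hgT hgB hgp using hch
  have hginj : Function.Injective g := by
    intro p p' h
    apply Subtype.ext
    rw [← hgp p, ← hgp p', h]
  refine ⟨U.image g, ?_, ?_, ?_⟩
  · intro v hv
    obtain ⟨p, _, rfl⟩ := Finset.mem_image.1 hv
    refine ⟨?_, (hgT p).1, ?_⟩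
    · intro hvB
      exact hgB p (Or.inl ⟨_, hvB, rfl⟩)
    · intro c
      refine kum_frob q hq ζ hζ b σ hord β hβ hσβ _ (hgT p) ?_ c
      intro hd
      exact hgB p (Or.inr hd)
  · intro v hv w hw h
    rw [Finset.mem_coe, Finset.mem_image] at hv hw
    obtain ⟨p, _, rfl⟩ := hv
    obtain ⟨p', _, rfl⟩ := hw
    have h' : Ideal.absNorm (g p).asIdeal = Ideal.absNorm (g p').asIdeal := h
    rw [hgp, hgp] at h'
    rw [Subtype.ext h']
  · rw [Finset.sum_image fun p _ p' _ h => hginj h]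
    refine le_trans hU (le_of_eq ?_)
    refine Finset.sum_congr rfl fun p _ => ?_
    rw [hgp, one_div]

end HQB
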