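import Pool.Agent.HQB.Base

set_option autoImplicit false
set_option linter.unusedVariables false

/-!
# [HQB-Lei] Leibniz rule for iterated differences of step `s`
-/

namespace HQB

theorem lei_add (s : ℕ) (j : ℕ) : ∀ u v : ℕ → ℤ,
    (Df s)^[j] (fun k => u k + v k) = fun k => (Df s)^[j] u k + (Df s)^[j] v k := by
  induction j with
  | zero => intro u v; rfl
  | succ j ih =>
    intro u v
    rw [Function.iterate_succ_apply, Function.iterate_succ_apply, Function.iterate_succ_apply,
      show Df s (fun k => u k + v k) = fun k => Df s u k + Df s v k from by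
        funext k; simp only [Df]; ring, ih]

theorem lei_shift (s t : ℕ) (j : ℕ) : ∀ (u : ℕ → ℤ) (k : ℕ),
    (Df s)^[j] (fun k => u (k + t)) k = (Df s)^[j] u (k + t) := by
  induction j with
  | zero => intro u k; rfl
  | succ j ih =>
    intro u k
    rw [Function.iterate_succ_apply, Function.iterate_succ_apply, 
      show Df s (fun k => u (k + t)) = fun k => Df s u (k + t) from by
        funext k; simp only [Df]; rw [show k + s + t = k + t + s by ring], ih]

/-- Proof. Induction on `j` for all `k`: `D^(j+1) (f g) = D (D^j (f g))` (`Function.iterate_succ_apply'`), and for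
`u = D^(j-i) f (· + i s)`, `v = D^i g`: `(u v)(k + s) - (u v)(k) = u (k + s) * D v k + D u k * v k`. Then Pascal
(`Finset.sum_range_succ'`, `Nat.choose_succ_succ`). (Alternatively induct with `D^j ∘ D`.) -/
theorem df_mul (s : ℕ) (f g : ℕ → ℤ) (j k : ℕ) : (Df s)^[j] (fun k => f k * g k) k =
    ∑ i ∈ Finset.range (j + 1), (j.choose i : ℤ) *
      ((Df s)^[j - i] f (k + i * s) * (Df s)^[i] g k) := by
  induction j generalizing f g with
  | zero => simp
  | succ j ih =>
    rw [Function.iterate_succ_apply,
      show Df s (fun k => f k * g k) =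
        fun k => (fun k => f (k + s)) k * Df s g k + Df s f k * g k from by
          funext k; simp only [Df]; ring, lei_add]
    have e1 := ih (fun k => f (k + s)) (Df s g)
    have e2 := ih (Df s f) g
    change (Df s)^[j] (fun k => f (k + s) * Df s g k) k + (Df s)^[j] (fun k => Df s f k * g k) k = _
    rw [e1, e2]
    set T : ℕ → ℤ := fun i => (Df s)^[j + 1 - i] f (k + i * s) * (Df s)^[i] g k with hT
    have f1 : ∀ i ∈ Finset.range (j + 1), ((j.choose i : ℕ) : ℤ) *
        ((Df s)^[j - i] (fun k => f (k + s)) (k + i * s) * (Df s)^[i] (Df s g) k) =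
        (j.choose i : ℤ) * T (i + 1) := by
      intro i hi
      rw [lei_shift, hT]
      simp only
      rw [Nat.succ_sub_succ, Function.iterate_succ_apply,
        show k + i * s + s = k + (i + 1) * s by ring]
    have f2 : ∀ i ∈ Finset.range (j + 1), ((j.choose i : ℕ) : ℤ) *
        ((Df s)^[j - i] (Df s f) (k + i * s) * (Df s)^[i] g k) =
        (j.choose i : ℤ) * T i := by
      intro i hi
      rw [Finset.mem_range] at hi
      rw [hT]
      simp only
      rw [show j + 1 - i = (j - i) + 1 by omega, Function.iterate_succ_apply]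
    rw [Finset.sum_congr rfl f1, Finset.sum_congr rfl f2]
    change _ = ∑ i ∈ Finset.range (j + 1 + 1), ((j + 1).choose i : ℤ) * T i
    rw [Finset.sum_range_succ' _ (j + 1)]
    have f3 : ∑ i ∈ Finset.range (j + 1), ((j + 1).choose (i + 1) : ℤ) * T (i + 1) =
        ∑ i ∈ Finset.range (j + 1), (j.choose i : ℤ) * T (i + 1) +
        ∑ i ∈ Finset.range (j + 1), (j.choose (i + 1) : ℤ) * T (i + 1) := by
      rw [← Finset.sum_add_distrib]
      refine Finset.sum_congr rfl fun i _ => ?_
      rw [Nat.choose_succ_succ]; push_cast; ring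
    have f4 : ∑ i ∈ Finset.range (j + 1), (j.choose (i + 1) : ℤ) * T (i + 1) + T 0 =
        ∑ i ∈ Finset.range (j + 1), (j.choose i : ℤ) * T i := by
      have a := Finset.sum_range_succ' (fun i => (j.choose i : ℤ) * T i) (j + 1)
      have b := Finset.sum_range_succ (fun i => (j.choose i : ℤ) * T i) (j + 1)
      rw [b] at a
      simp only [Nat.choose_succ_self, Nat.cast_zero, zero_mul, add_zero, Nat.choose_zero_right,
        Nat.cast_one, one_mul] at a
      exact a.symm
    rw [f3, ← f4]
    simp only [Nat.choose_zero_right, Nat.cast_one, one_mul]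
    ring

/-- Proof. Strong induction on `j`. The term `i = j` of `df_mul` is `f (k + j s) * D^j g k`; the terms with `i < j` lie in
`P ^ (j - i) * P ^ i = P ^ j`, and so does the left side. So `f (k + j s) * D^j g k ∈ P ^ j` (in `R`). As `p ∤ f (k + j s)`
there are integers `a`, `b` with `a f (k + j s) + b p ^ j = 1`, and `p ^ j ∈ P ^ j`: so `D^j g k ∈ P ^ j`. -/
theorem leib {R : Type} [CommRing R] (P : Ideal R) (p : ℕ) (hp : p.Prime) (hpP : (p : R) ∈ P)
    (s : ℕ) (f g : ℕ → ℤ) (hf : ∀ j k, (((Df s)^[j] f k : ℤ) : R) ∈ P ^ j)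
    (hN : ∀ j k, (((Df s)^[j] (fun k => f k * g k) k : ℤ) : R) ∈ P ^ j)
    (hu : ∀ k, ¬ (p : ℤ) ∣ f k) (j k : ℕ) : (((Df s)^[j] g k : ℤ) : R) ∈ P ^ j := by
  induction j using Nat.strong_induction_on generalizing k with
  | _ j ih =>
    have h1 := hN j k
    rw [df_mul, Finset.sum_range_succ, Int.cast_add] at h1
    have h2 : ((∑ i ∈ Finset.range j, ((j.choose i : ℕ) : ℤ) *
        ((Df s)^[j - i] f (k + i * s) * (Df s)^[i] g k) : ℤ) : R) ∈ P ^ j := by
      rw [Int.cast_sum]
      refine Ideal.sum_mem _ fun i hi => ?_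
      rw [Finset.mem_range] at hi
      rw [Int.cast_mul, Int.cast_mul]
      refine Ideal.mul_mem_left _ _ ?_
      have := Ideal.mul_mem_mul (hf (j - i) (k + i * s)) (ih i hi k)
      rwa [← pow_add, Nat.sub_add_cancel hi.le] at this
    have h3 := (Ideal.add_mem_iff_right _ h2).mp h1
    simp only [Nat.choose_self, Nat.cast_one, one_mul, Nat.sub_self, Function.iterate_zero, id_eq]
      at h3
    have hc : IsCoprime (f (k + j * s)) ((p : ℤ) ^ j) := by
      refine IsCoprime.pow_right ?_
      rw [isCoprime_comm]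
      exact (Nat.prime_iff_prime_int.mp hp).coprime_iff_not_dvd.mpr (hu _)
    obtain ⟨a, b, hab⟩ := hc
    have h4 : (((Df s)^[j] g k : ℤ) : R) = (a : R) * ((f (k + j * s) * (Df s)^[j] g k : ℤ) : R) +
        ((b * (Df s)^[j] g k : ℤ) : R) * (p : R) ^ j := by
      have : (Df s)^[j] g k = a * (f (k + j * s) * (Df s)^[j] g k) +
          (b * (Df s)^[j] g k) * (p : ℤ) ^ j := by
        linear_combination (-(Df s)^[j] g k) * hab
      calc (((Df s)^[j] g k : ℤ) : R) = ((a * (f (k + j * s) * (Df s)^[j] g k) +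
          (b * (Df s)^[j] g k) * (p : ℤ) ^ j : ℤ) : R) := by rw [← this]
        _ = _ := by push_cast; ring
    rw [h4]
    exact Ideal.add_mem _ (Ideal.mul_mem_left _ _ h3)
      (Ideal.mul_mem_left _ _ (Ideal.pow_mem_pow hpP j))

end HQB
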