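import Pool.Agent.HQB.Quo
import Pool.Agent.HQB.Itl
import Pool.Agent.WGS.Main2

set_option autoImplicit false
set_option linter.unusedVariables false

/-!
# [HQB-Main] the one factor theorem
-/

namespace HQB

open WGS

theorem one_factor (b : ℕ) (hb : 2 ≤ b) (U : ℕ → ℂ) (hU : IsLRS U) (T r n₀ : ℕ) (hT : 1 ≤ T)
    (hrT : r.Coprime T)
    (h : ∀ n : ℕ, n₀ ≤ n → n ≡ r [MOD T] → ∃ x y : ℤ, U n = x ∧ 1 < |x| ∧ 1 < |y| ∧
      ((b : ℤ) + 1) * (x * y) = (b : ℤ) ^ n + 1) :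
    (∃ a m : ℕ, 2 ≤ a ∧ 3 ≤ m ∧ Odd m ∧ b = a ^ m) ∨ ∃ k : ℕ, 1 ≤ k ∧ b = 4 * k ^ 4 := by
  -- the start
  obtain ⟨m, hm⟩ := lrs_ep hU
  obtain ⟨ρ, hρ⟩ : ∃ ρ, ρ = r + T * (n₀ + m + 1) := ⟨_, rfl⟩
  have hTk : ∀ k : ℕ, k ≤ T * k := fun k => Nat.le_mul_of_pos_left k (by omega)
  have hρ1 : n₀ + m + 1 ≤ ρ := by
    have := hTk (n₀ + m + 1)
    omega
  have hρT : ρ.Coprime T := by
    rw [hρ]
    exact (Nat.coprime_add_mul_left_left r T (n₀ + m + 1)).2 hrT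
  have hcls : ∀ k, ρ + T * k ≡ r [MOD T] := by
    intro k
    rw [hρ, show r + T * (n₀ + m + 1) + T * k = r + T * (n₀ + m + 1 + k) by ring]
    exact Nat.add_mul_mod_self_left r T _
  have h' : ∀ k, ∃ x y : ℤ, U (ρ + T * k) = x ∧ 1 < |x| ∧ 1 < |y| ∧
      ((b : ℤ) + 1) * (x * y) = (b : ℤ) ^ (ρ + T * k) + 1 := fun k => h _ (by omega) (hcls k)
  choose x y hx hx1 hy1 hxy using h'
  have hEP : (fun k => (x k : ℂ)) ∈ EP := by
    have h1 := ep_decim hm T (ρ - m)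
    refine (congrArg (· ∈ EP) (funext fun k => ?_)).mp h1
    have e : T * k + (ρ - m) + m = ρ + T * k := by omega
    rw [e, hx]
  obtain ⟨q, hq, hqT, hlrs⟩ := quo b ρ T hb (by omega) hT hρT x (fun k => ((b : ℤ) + 1) * y k) hEP
    (fun k => by rw [← hxy k]; ring)
  have hb1 : ((b : ℂ) + 1) ≠ 0 := by exact_mod_cast Nat.succ_ne_zero b
  have hlrs' : IsLRS (fun k => (y (q * k) : ℂ)) := by
    have h1 := lrs_smul ((b : ℂ) + 1)⁻¹ hlrs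
    refine (congrArg IsLRS (funext fun k => ?_)).mp h1
    push_cast
    rw [← mul_assoc, inv_mul_cancel₀ hb1, one_mul]
  obtain ⟨G, hG, hGy⟩ := itl (T * q) ρ (Nat.one_le_iff_ne_zero.2 (Nat.mul_ne_zero (by omega) (by omega)))
    _ hlrs'
  refine main3 b hb U G hU hG fun M hM => ?_
  -- a prime in the progression
  have hTq : T * q ≠ 0 := Nat.mul_ne_zero (by omega) (by omega)
  haveI : NeZero (T * q) := ⟨hTq⟩
  obtain ⟨n, hn, hpr, hnmod⟩ := Nat.forall_exists_prime_gt_and_eq_mod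
    ((ZMod.isUnit_iff_coprime ρ (T * q)).2 hqT) (M + ρ)
  have hmod : ρ ≡ n [MOD T * q] := ((ZMod.natCast_eq_natCast_iff _ _ _).1 hnmod).symm
  obtain ⟨k, hk⟩ := (Nat.modEq_iff_dvd' (by omega : ρ ≤ n)).1 hmod
  have hnk : n = ρ + T * q * k := by omega
  refine ⟨n, hpr.one_lt, ?_, ⟨x (q * k), ?_, hx1 _⟩, ⟨y (q * k), ?_, hy1 _⟩, ?_⟩
  · refine (Nat.Prime.coprime_iff_not_dvd hpr).2 fun hd => ?_
    have := Nat.le_of_dvd (by omega) hd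
    omega
  · rw [hnk, mul_assoc, hx]
  · rw [hnk, hGy]
  · rw [hnk, hGy, mul_assoc, hx]
    have h1 := hxy (q * k)
    exact_mod_cast h1

end HQB
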