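import Pool.Agent.WGS.Ind

set_option autoImplicit false
set_option linter.unusedVariables false

/-!
# [HQB-Pol0] polynomial coefficients: the specialisation
-/

namespace HQB

open WGS Polynomial

/-- Proof. For `y : ℕ` let `F y = ∑ x ∈ S, C (c x * x.1 ^ y) * X ^ x.2 ∈ ℂ[X]`. If the coefficient of `X ^ x₀.2` of `F y` vanished for all `y`, then
`∑_{x ∈ S, x.2 = x₀.2} c x * ee x.1 0 y = 0` for all `y`, against `ee_indep` (`x₀` occurs, `c x₀ ≠ 0`). So for some `y`, `F y` is not constant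
(`x₀.2 ≥ 1`) and has a root `θ ∈ ℂ`. `θ` is algebraic over `A = algebraicClosure ℚ ℂ`, because `F y ≠ 0` has coefficients in `A`, hence
algebraic over `ℚ` (`Algebra.IsAlgebraic.trans`, `IsAlgebraic.restrictScalars`; or `IsAlgClosed`-ness of `A`). -/
theorem pol_root (S : Finset (ℂˣ × ℕ)) (c : ℂˣ × ℕ → ℂ) (hc : ∀ x ∈ S, c x ≠ 0)
    (h1 : ∀ x ∈ S, IsAlgebraic ℚ (x.1 : ℂ)) (h2 : ∀ x ∈ S, IsAlgebraic ℚ (c x))
    (x₀ : ℂˣ × ℕ) (hx₀ : x₀ ∈ S) (hx₀' : x₀.2 ≠ 0) :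
    ∃ (y : ℕ) (θ : ℂ), IsAlgebraic ℚ θ ∧ ∑ x ∈ S, c x * (θ ^ x.2 * (x.1 : ℂ) ^ y) = 0 := by
  classical
  -- a nonvanishing coefficient
  have hy : ∃ y : ℕ, ∑ x ∈ S.filter (fun x => x.2 = x₀.2), c x * (x.1 : ℂ) ^ y ≠ 0 := by
    by_contra hne
    push Not at hne
    have hli : LinearIndependent ℂ (fun x : {x : ℂˣ × ℕ // x ∈ S.filter (fun x => x.2 = x₀.2)} => ee x.1.1 0) := by
      refine ee_indep.comp (fun x : {x : ℂˣ × ℕ // x ∈ S.filter (fun x => x.2 = x₀.2)} => ((x.1.1, 0) : ℂˣ × ℕ)) ?_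
      intro a b hab
      have h3 := (Finset.mem_filter.1 a.2).2
      have h4 := (Finset.mem_filter.1 b.2).2
      have h5 := (Prod.mk.inj (show ((a.1.1, 0) : ℂˣ × ℕ) = (b.1.1, 0) from hab)).1
      exact Subtype.ext (Prod.ext h5 (h3.trans h4.symm))
    rw [linearIndependent_iff'] at hli
    have h3 := hli Finset.univ (fun x => c x.1) (by
      funext y
      rw [Finset.sum_apply]
      have h5 := hne y
      rw [← Finset.sum_coe_sort] at h5
      rw [Pi.zero_apply, ← h5]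
      refine Finset.sum_congr rfl fun x _ => ?_
      show c x.1 * ((y : ℂ) ^ 0 * (x.1.1 : ℂ) ^ y) = c x.1 * (x.1.1 : ℂ) ^ y
      rw [pow_zero, one_mul]) ⟨x₀, Finset.mem_filter.2 ⟨hx₀, rfl⟩⟩ (Finset.mem_univ _)
    exact hc x₀ hx₀ h3
  obtain ⟨y, hy⟩ := hy
  set A : IntermediateField ℚ ℂ := algebraicClosure ℚ ℂ with hA
  have hmem : ∀ z : ℂ, IsAlgebraic ℚ z → z ∈ A := fun z hz => (mem_algebraicClosure_iff').2 hz.isIntegral
  set d : ℂˣ × ℕ → A := fun x => if h : c x * (x.1 : ℂ) ^ y ∈ A then ⟨_, h⟩ else 0 with hd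
  have hdc : ∀ x ∈ S, ((d x : A) : ℂ) = c x * (x.1 : ℂ) ^ y := by
    intro x hx
    have h3 : c x * (x.1 : ℂ) ^ y ∈ A := A.mul_mem (hmem _ (h2 x hx)) (A.pow_mem (hmem _ (h1 x hx)) y)
    simp only [hd]
    rw [dif_pos h3]
  set G : A[X] := ∑ x ∈ S, C (d x) * X ^ x.2 with hG
  have hcoef : ((G.coeff x₀.2 : A) : ℂ) = ∑ x ∈ S.filter (fun x => x.2 = x₀.2), c x * (x.1 : ℂ) ^ y := by
    rw [hG, finsetSum_coeff, Finset.sum_filter]
    push_cast
    refine Finset.sum_congr rfl fun x hx => ?_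
    rw [coeff_C_mul, coeff_X_pow]
    by_cases hxx : x.2 = x₀.2
    · rw [if_pos hxx, if_pos hxx.symm, mul_one, hdc x hx]
    · rw [if_neg hxx, if_neg (fun h => hxx h.symm), mul_zero]
      rfl
  have hG0 : G.coeff x₀.2 ≠ 0 := by
    intro h3
    rw [h3] at hcoef
    exact hy hcoef.symm
  have hGne : G ≠ 0 := by
    rintro h3
    rw [h3, coeff_zero] at hG0
    exact hG0 rfl
  have hdeg : (G.map (algebraMap A ℂ)).degree ≠ 0 := by
    rw [degree_map]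
    intro h3
    have h4 : G.natDegree = 0 := natDegree_eq_of_degree_eq_some h3
    have h5 := le_natDegree_of_ne_zero hG0
    omega
  obtain ⟨θ, hθ⟩ := IsAlgClosed.exists_root _ hdeg
  have hθ' : aeval θ G = 0 := by
    rw [IsRoot.def, eval_map_algebraMap] at hθ
    exact hθ
  have halg : IsAlgebraic A θ := ⟨G, hGne, hθ'⟩
  have hAalg : Algebra.IsAlgebraic ℚ A := algebraicClosure.isAlgebraic ℚ ℂ
  refine ⟨y, θ, IsAlgebraic.restrictScalars ℚ halg, ?_⟩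
  rw [hG, map_sum] at hθ'
  rw [← hθ']
  refine Finset.sum_congr rfl fun x hx => ?_
  rw [map_mul, aeval_C, map_pow, aeval_X]
  have h3 : algebraMap A ℂ (d x) = c x * (x.1 : ℂ) ^ y := hdc x hx
  rw [h3]
  ring

end HQB
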