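import Pool.Agent.HQB.Res

set_option autoImplicit false
set_option linter.unusedVariables false

/-!
# [HQB-Pol1] polynomial coefficients: reduction modulo a degree one prime
-/

namespace HQB

open NumberField IsDedekindDomain

/-- Proof. `ρ` from `res`; `x₀ = (ρ θ).val`. For such `k`: `ρ` of `f k` is `∑ ρ (c i) * (k ^ e i * ρ (α i) ^ k) =
∑ ρ (c i) * (x₀ ^ e i * ρ (α i) ^ y)` (`ρ (α i) ≠ 0`, `ZMod.pow_card_sub_one_eq_one`, `k ≡ y mod p - 1`), which is `ρ` of the sum in `h0`, so `0`. So `(f k : ZMod p) = 0`,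
`(ZMod.intCast_zmod_eq_zero_iff_dvd _ _).1`. -/
theorem pol_red {F : Type} [Field F] [NumberField F] (v : HeightOneSpectrum (𝓞 F)) (p : ℕ)
    [Fact p.Prime] (hv : Ideal.absNorm v.asIdeal = p) {ι : Type} (S : Finset ι) (c α : ι → F)
    (e : ι → ℕ) (hc : ∀ i ∈ S, v.valuation F (c i) ≤ 1) (hα : ∀ i ∈ S, v.valuation F (α i) = 1)
    (f : ℕ → ℤ) (hf : ∀ k, (f k : F) = ∑ i ∈ S, c i * ((k : F) ^ e i * α i ^ k))
    (θ : F) (hθ : v.valuation F θ ≤ 1) (y : ℕ)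
    (h0 : ∑ i ∈ S, c i * (θ ^ e i * α i ^ y) = 0) :
    ∃ x₀ : ℕ, ∀ k : ℕ, k ≡ x₀ [MOD p] → k ≡ y [MOD p - 1] → (p : ℤ) ∣ f k := by
  classical
  obtain ⟨ρ, hρ⟩ := res v p hv
  refine ⟨(ρ ⟨θ, hθ⟩).val, fun k hk1 hk2 => ?_⟩
  set cR : ι → (v.valuation F).integer := fun i =>
    if h : v.valuation F (c i) ≤ 1 then ⟨c i, h⟩ else 0 with hcR
  set aR : ι → (v.valuation F).integer := fun i =>
    if h : v.valuation F (α i) ≤ 1 then ⟨α i, h⟩ else 0 with haR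
  have hcc : ∀ i ∈ S, ((cR i : (v.valuation F).integer) : F) = c i := by
    intro i hi
    simp only [hcR]
    rw [dif_pos (hc i hi)]
  have haa : ∀ i ∈ S, ((aR i : (v.valuation F).integer) : F) = α i := by
    intro i hi
    simp only [haR]
    rw [dif_pos (hα i hi).le]
  have ha0 : ∀ i ∈ S, ρ (aR i) ≠ 0 := by
    intro i hi h1
    rw [hρ, haa i hi, hα i hi] at h1
    exact lt_irrefl _ h1
  have hpow : ∀ i ∈ S, ρ (aR i) ^ k = ρ (aR i) ^ y := by
    intro i hi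
    obtain ⟨w, hw⟩ : ∃ w : (ZMod p)ˣ, (w : ZMod p) = ρ (aR i) := ⟨Units.mk0 _ (ha0 i hi), rfl⟩
    rw [← hw]
    have h1 : orderOf w ∣ p - 1 := orderOf_dvd_of_pow_eq_one (ZMod.units_pow_card_sub_one_eq_one p w)
    have h2 : w ^ k = w ^ y := pow_eq_pow_iff_modEq.2 (hk2.of_dvd h1)
    rw [← Units.val_pow_eq_pow_val, h2, Units.val_pow_eq_pow_val]
  have hkθ : (k : ZMod p) = ρ ⟨θ, hθ⟩ := by
    have h1 := (ZMod.natCast_eq_natCast_iff k (ρ ⟨θ, hθ⟩).val p).2 hk1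
    rw [h1, ZMod.natCast_zmod_val]
  have e1 : ((f k : ℤ) : (v.valuation F).integer) = ∑ i ∈ S, cR i * ((k : (v.valuation F).integer) ^ e i * aR i ^ k) := by
    apply Subtype.ext
    push_cast
    rw [hf k]
    exact Finset.sum_congr rfl fun i hi => by rw [hcc i hi, haa i hi]
  have e2 : ∑ i ∈ S, cR i * ((⟨θ, hθ⟩ : (v.valuation F).integer) ^ e i * aR i ^ y) = 0 := by
    apply Subtype.ext
    push_cast
    rw [← h0]
    exact Finset.sum_congr rfl fun i hi => by rw [hcc i hi, haa i hi]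
  have e3 := congrArg ρ e1
  have e4 := congrArg ρ e2
  rw [map_intCast, map_sum] at e3
  rw [map_sum, map_zero] at e4
  rw [← ZMod.intCast_zmod_eq_zero_iff_dvd, e3, ← e4]
  refine Finset.sum_congr rfl fun i hi => ?_
  rw [map_mul, map_mul, map_pow, map_pow, map_mul, map_mul, map_pow, map_pow, map_natCast, hkθ, hpow i hi]

end HQB
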