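import Pool.Agent.HQB.Pol0
import Pool.Agent.HQB.Pol1
import Pool.Agent.HQB.Cls
import Pool.Agent.HQB.Fld

set_option autoImplicit false
set_option linter.unusedVariables false

/-!
# [HQB-Pol2] divisors of `b ^ (r + T k) + 1` have no polynomial coefficients
-/

namespace HQB

/-- Proof. Suppose `x₀ ∈ S`, `x₀.2 ≠ 0`; `y`, `θ` from `pol_root`. `exists_field` for
`s = image (·.1) S ∪ image c S ∪ {θ}`: choose a prime `q ≥ q₀`, `q > r + T y`, `q ≠ 2`; the field `F`, `ι` injective, and (with `C = 1`) a `v` with `p = absNorm v`,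
for which the preimages of `x.1`, `c x` have value `1`, the preimage of `θ` value `≤ 1` (also if it is `0`). The identities `hf`, `h0` hold in `F` by
injectivity of `ι`. `pol_red`: `x₁` with `p ∣ f k` for all `k ≡ x₁ mod p`, `k ≡ y mod p - 1`. `p ≠ q` because `p ∤ b ^ q - b` but `q ∣ b ^ q - b` (Fermat: `ZMod.pow_card`).
So `p` is prime to `(p - 1) q` and there is `k` with `k ≡ x₁ mod p`, `k ≡ y mod (p - 1) q` (`Nat.chineseRemainder`). Then `p ∣ f k ∣ b ^ (r + T k) + 1`, and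
`q ∤ r + T k` because `r + T k ≡ r + T y mod q`, `0 < r + T y < q`. This contradicts `cls`. -/
theorem pol_excl (b r T : ℕ) (hb : 2 ≤ b) (hr : 1 ≤ r) (f : ℕ → ℤ) (S : Finset (ℂˣ × ℕ))
    (c : ℂˣ × ℕ → ℂ) (hc : ∀ x ∈ S, c x ≠ 0) (h1 : ∀ x ∈ S, IsAlgebraic ℚ (x.1 : ℂ))
    (h2 : ∀ x ∈ S, IsAlgebraic ℚ (c x))
    (hf : ∀ k, (f k : ℂ) = ∑ x ∈ S, c x * ((k : ℂ) ^ x.2 * (x.1 : ℂ) ^ k))
    (hd : ∀ k, f k ∣ (b : ℤ) ^ (r + T * k) + 1) : ∀ x ∈ S, x.2 = 0 := by
  classical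
  intro x₀ hx₀
  by_contra hx₀'
  obtain ⟨y, θ, hθ, h0⟩ := pol_root S c hc h1 h2 x₀ hx₀ hx₀'
  obtain ⟨s, hs⟩ : ∃ s : Finset ℂ, s = S.image (fun x => (x.1 : ℂ)) ∪ S.image c ∪ {θ} := ⟨_, rfl⟩
  have hsalg : ∀ x ∈ s, IsAlgebraic ℚ x := by
    intro x hx
    rw [hs, Finset.mem_union, Finset.mem_union, Finset.mem_image, Finset.mem_image,
      Finset.mem_singleton] at hx
    rcases hx with (⟨z, hz, rfl⟩ | ⟨z, hz, rfl⟩) | rfl
    · exact h1 z hz
    · exact h2 z hz
    · exact hθ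
  obtain ⟨q₀, hq₀⟩ := exists_field s hsalg b hb
  obtain ⟨q, hqge, hq⟩ := Nat.exists_infinite_primes (q₀ + (r + T * y) + 3)
  obtain ⟨F, _, _, ι, hι, hC⟩ := hq₀ q hq (by omega)
  have hιinj : Function.Injective ι := ι.injective
  have hαe : ∀ x : ℂˣ × ℕ, ∃ z : F, x ∈ S → ι z = (x.1 : ℂ) := by
    intro x
    by_cases hx : x ∈ S
    · obtain ⟨z, hz⟩ := hι (x.1 : ℂ) (by
        rw [hs]
        exact Finset.mem_union_left _ (Finset.mem_union_left _ (Finset.mem_image_of_mem _ hx)))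
      exact ⟨z, fun _ => hz⟩
    · exact ⟨0, fun h => absurd h hx⟩
  have hce : ∀ x : ℂˣ × ℕ, ∃ z : F, x ∈ S → ι z = c x := by
    intro x
    by_cases hx : x ∈ S
    · obtain ⟨z, hz⟩ := hι (c x) (by
        rw [hs]
        exact Finset.mem_union_left _ (Finset.mem_union_right _ (Finset.mem_image_of_mem _ hx)))
      exact ⟨z, fun _ => hz⟩
    · exact ⟨0, fun h => absurd h hx⟩
  choose α hα using hαe
  choose c' hc' using hce
  obtain ⟨θ', hθ'⟩ := hι θ (by rw [hs]; simp)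
  obtain ⟨Sv, hSv, -, hsum⟩ := hC 1
  obtain ⟨v, hv⟩ : ∃ v, v ∈ Sv := by
    by_contra hcon
    push Not at hcon
    rw [Finset.eq_empty_of_forall_notMem hcon, Finset.sum_empty] at hsum
    norm_num at hsum
  obtain ⟨hp, hp3, hv1, hres⟩ := hSv v hv
  obtain ⟨p, hpdef⟩ : ∃ p, p = Ideal.absNorm v.asIdeal := ⟨_, rfl⟩
  rw [← hpdef] at hp hp3 hres
  have : Fact p.Prime := ⟨hp⟩
  have hfF : ∀ k, (f k : F) = ∑ x ∈ S, c' x * ((k : F) ^ x.2 * α x ^ k) := by
    intro k
    apply hιinj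
    rw [map_intCast, map_sum, hf]
    refine Finset.sum_congr rfl fun x hx => ?_
    rw [map_mul, map_mul, map_pow, map_pow, map_natCast, hc' x hx, hα x hx]
  have h0F : ∑ x ∈ S, c' x * (θ' ^ x.2 * α x ^ y) = 0 := by
    apply hιinj
    rw [map_sum, map_zero, ← h0]
    refine Finset.sum_congr rfl fun x hx => ?_
    rw [map_mul, map_mul, map_pow, map_pow, hc' x hx, hα x hx, hθ']
  obtain ⟨x₁, hx₁⟩ := pol_red v p hpdef.symm S c' α (fun x => x.2)
    (by
      intro x hx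
      refine (hv1 _ ?_ ?_).le
      · rw [hc' x hx, hs]
        exact Finset.mem_union_left _ (Finset.mem_union_right _ (Finset.mem_image_of_mem _ hx))
      · intro h5
        have h6 := hc' x hx
        rw [h5, map_zero] at h6
        exact hc x hx h6.symm)
    (by
      intro x hx
      refine hv1 _ ?_ ?_
      · rw [hα x hx, hs]
        exact Finset.mem_union_left _ (Finset.mem_union_left _ (Finset.mem_image_of_mem _ hx))
      · intro h5
        have h6 := hα x hx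
        rw [h5, map_zero] at h6
        exact x.1.ne_zero h6.symm)
    f hfF θ'
    (by
      by_cases h5 : θ' = 0
      · rw [h5, map_zero]
        exact zero_le_one
      · refine (hv1 _ ?_ h5).le
        rw [hθ', hs]
        simp)
    y h0F
  -- `p ≠ q`
  have hpq : p ≠ q := by
    rintro rfl
    refine hres b ?_
    rw [← ZMod.intCast_zmod_eq_zero_iff_dvd]
    push_cast
    rw [ZMod.pow_card, sub_self]
  have hcop : p.Coprime ((p - 1) * q) := by
    refine Nat.Coprime.mul_right ?_ ((Nat.coprime_primes hp hq).2 hpq)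
    rw [Nat.Prime.coprime_iff_not_dvd hp]
    intro hd
    have := Nat.le_of_dvd (by omega) hd
    omega
  obtain ⟨k, hk1, hk2⟩ := Nat.chineseRemainder hcop x₁ y
  have hk3 : k ≡ y [MOD p - 1] := Nat.ModEq.of_mul_right _ hk2
  have hk4 : k ≡ y [MOD q] := Nat.ModEq.of_mul_left _ hk2
  have hpf : (p : ℤ) ∣ (b : ℤ) ^ (r + T * k) + 1 := (hx₁ k hk1 hk3).trans (hd k)
  have hpn : p ∣ b ^ (r + T * k) + 1 := by exact_mod_cast hpf
  refine cls b q p (r + T * k) hq (by omega) hp ?_ (by omega) hres hpn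
  intro hqd
  have h5 : r + T * k ≡ r + T * y [MOD q] := Nat.ModEq.add_left _ (Nat.ModEq.mul_left _ hk4)
  have h6 : q ∣ r + T * y := (Nat.modEq_zero_iff_dvd).1 (h5.symm.trans ((Nat.modEq_zero_iff_dvd).2 hqd))
  have := Nat.le_of_dvd (by omega) h6
  omega

end HQB
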