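import Pool.Agent.HQB.Res

set_option autoImplicit false
set_option linter.unusedVariables false

/-!
# [HQB-Smp] differences of step `p - 1` of simple recurrence sequences at a degree one prime
-/

namespace HQB

open NumberField IsDedekindDomain

theorem smp_iter {F : Type} [Field F] {ι : Type} (S : Finset ι) (c α : ι → F) (s : ℕ) (f : ℕ → ℤ)
    (hf : ∀ k, (f k : F) = ∑ i ∈ S, c i * α i ^ k) (j : ℕ) :
    ∀ k, (((Df s)^[j] f k : ℤ) : F) = ∑ i ∈ S, c i * α i ^ k * (α i ^ s - 1) ^ j := by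
  induction j with
  | zero =>
    intro k
    rw [Function.iterate_zero, id, hf k]
    exact Finset.sum_congr rfl fun i _ => by rw [pow_zero, mul_one]
  | succ j ih =>
    intro k
    rw [Function.iterate_succ', Function.comp_apply]
    show (((Df s)^[j] f (k + s) - (Df s)^[j] f k : ℤ) : F) = _
    rw [Int.cast_sub, ih, ih, ← Finset.sum_sub_distrib]
    exact Finset.sum_congr rfl fun i _ => by ring

theorem smp_lt_one {x : WithZero (Multiplicative ℤ)} (hx : x < 1) : x ≤ WithZero.exp (-1) := by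
  rw [← WithZero.lt_mul_exp_iff_le WithZero.exp_ne_zero, ← WithZero.exp_add]
  simpa using hx

/-- Proof. `(Df s)^[j] f k = ∑ i ∈ S, c i * α i ^ k * (α i ^ s - 1) ^ j` in `F` (induction on `j` for all `k`). With `ρ` of `res` and
`ZMod.pow_card_sub_one_eq_one` (`ρ (α i) ≠ 0`): `v (α i ^ (p - 1) - 1) < 1`, so `≤ exp (-1)` (`WithZero`/`Multiplicative ℤ`), so
`v ((Df s)^[j] f k) ≤ exp (-j)` (`Valuation.map_sum_le`), and `HeightOneSpectrum.valuation_of_algebraMap`,
`HeightOneSpectrum.intValuation_le_pow_iff_mem`. (One may also argue with ideals only, as convenient.) -/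
theorem smp {F : Type} [Field F] [NumberField F] (v : HeightOneSpectrum (𝓞 F)) (p : ℕ)
    [Fact p.Prime] (hv : Ideal.absNorm v.asIdeal = p) {ι : Type} (S : Finset ι) (c α : ι → F)
    (hc : ∀ i ∈ S, v.valuation F (c i) ≤ 1) (hα : ∀ i ∈ S, v.valuation F (α i) = 1)
    (f : ℕ → ℤ) (hf : ∀ k, (f k : F) = ∑ i ∈ S, c i * α i ^ k) (j k : ℕ) :
    (((Df (p - 1))^[j] f k : ℤ) : 𝓞 F) ∈ v.asIdeal ^ j := by
  obtain ⟨ρ, hρ⟩ := res v p hv
  have h1 : ∀ i ∈ S, v.valuation F (α i ^ (p - 1) - 1) ≤ WithZero.exp (-1) := by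
    intro i hi
    apply smp_lt_one
    let a : (v.valuation F).integer := ⟨α i, (hα i hi).le⟩
    have ha : ρ a ≠ 0 := by
      intro h0
      have h2 := (hρ a).1 h0
      exact absurd (hα i hi) h2.ne
    have h3 : ρ (a ^ (p - 1) - 1) = 0 := by
      rw [map_sub, map_pow, map_one, ZMod.pow_card_sub_one_eq_one ha, sub_self]
    exact (hρ _).1 h3
  rw [← v.intValuation_le_pow_iff_mem, ← v.valuation_of_algebraMap (K := F)]
  have h2 : (algebraMap (𝓞 F) F) (((Df (p - 1))^[j] f k : ℤ) : 𝓞 F)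
      = ∑ i ∈ S, c i * α i ^ k * (α i ^ (p - 1) - 1) ^ j := by
    rw [map_intCast]
    exact smp_iter S c α (p - 1) f hf j k
  refine le_of_eq_of_le (congrArg (v.valuation F) h2) ?_
  apply Valuation.map_sum_le
  intro i hi
  rw [map_mul, map_mul, map_pow, map_pow, hα i hi, one_pow, mul_one]
  have h3 : WithZero.exp (-(j : ℤ)) = 1 * (WithZero.exp (-1 : ℤ)) ^ j := by
    rw [one_mul, ← WithZero.exp_nsmul]
    congr 1
    simp
  rw [h3]
  exact mul_le_mul' (hc i hi) (pow_le_pow_left' (h1 i hi) j)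

/-- Proof. `span {H} ≤ P ^ E` gives `absNorm (P ^ E) ∣ absNorm (span {H})` (`Ideal.absNorm_dvd_absNorm_of_le`), `absNorm (span {H}) =
|norm H| = |H| ^ d` (`Ideal.absNorm_span_singleton`, `Algebra.norm_algebraMap`, `RingOfIntegers.rank`); then back to `ℤ`. -/
theorem norm_dvd {F : Type} [Field F] [NumberField F] (P : Ideal (𝓞 F)) (H : ℤ) (E : ℕ)
    (h : (H : 𝓞 F) ∈ P ^ E) :
    ((Ideal.absNorm P : ℕ) : ℤ) ^ E ∣ H ^ (Module.finrank ℚ F) := by
  have h1 : Ideal.absNorm (P ^ E) ∣ Ideal.absNorm (Ideal.span {(H : 𝓞 F)}) :=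
    Ideal.absNorm_dvd_absNorm_of_le ((Ideal.span_singleton_le_iff_mem _).2 h)
  rw [map_pow, Ideal.absNorm_span_singleton] at h1
  have h2 : Algebra.norm ℤ (H : 𝓞 F) = H ^ (Module.finrank ℚ F) := by
    have h3 := Algebra.norm_algebraMap (R := ℤ) (S := 𝓞 F) H
    rw [RingOfIntegers.rank] at h3
    rw [← h3]
    rfl
  rw [h2] at h1
  have h3 := Int.natCast_dvd_natCast.2 h1
  rw [Int.dvd_natAbs] at h3
  exact_mod_cast h3

end HQB
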