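import Pool.Agent.HQB.Lei
import Pool.Agent.HQB.Det
import Pool.Agent.HQB.Grw
import Pool.Agent.HQB.Kro
import Pool.Agent.HQB.Smp
import Pool.Agent.HQB.Alg2
import Pool.Agent.HQB.Cls
import Pool.Agent.HQB.Pol2

set_option autoImplicit false
set_option linter.unusedVariables false

/-!
# [HQB-Quo] the cofactor is a linear recurrence sequence
-/

namespace HQB

open WGS NumberField IsDedekindDomain

/-- Proof. `ep_alg`, `pol_excl`: `f k = ∑ x ∈ S, c x * x.1 ^ k`. `exists_field` for `s = image (·.1) S ∪ image c S ∪ {b}`, a prime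
`q ≥ q₀`, `q > r`, `q ≠ 2`, `q > T`: so `r` is prime to `T q`. `f' k = f (q k)`, `g' k = g (q k)`, `N k = b ^ (r + T q k) + 1 = f' k * g' k`,
`β = b ^ (T q)`, `A = 2 b ^ r`, `d = finrank ℚ F`, `S'` the set of good `v` for `C = d log β + 1`. For `v ∈ S'`, `p = absNorm v`, `P = v.asIdeal`: by `smp` (roots `x.1 ^ q`, coefficients `c x`; for
`N` : roots `β`, `1`, coefficients `b ^ r`, `1`) and `leib` with `hu` from `cls` (`f' k ∣ b ^ n + 1`, `n = r + T q k` prime to `q`), all differences of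
step `p - 1` of `g'` are in the powers of `P`. `det_mem`, `norm_dvd`: `p ^ E ∣ (hk g' n) ^ d`. `hk_le`: `|g' k| ≤ |N k| ≤ A β ^ k`. `grw` (with the image of `S'`
under `absNorm`): `hk g' n = 0` for large `n`; `kro`. -/
theorem quo (b r T : ℕ) (hb : 2 ≤ b) (hr : 1 ≤ r) (hT : 1 ≤ T) (hrT : r.Coprime T) (f g : ℕ → ℤ)
    (hf : (fun k => (f k : ℂ)) ∈ EP) (hfg : ∀ k, f k * g k = (b : ℤ) ^ (r + T * k) + 1) :
    ∃ q : ℕ, 1 ≤ q ∧ r.Coprime (T * q) ∧ IsLRS (fun k => (g (q * k) : ℂ)) := by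
  classical
  obtain ⟨S, c, hc, h1, h2, hfS⟩ := ep_alg f hf
  have hpol := pol_excl b r T hb hr f S c hc h1 h2 hfS (fun k => ⟨g k, (hfg k).symm⟩)
  -- the field
  obtain ⟨s, hs⟩ : ∃ s : Finset ℂ, s = S.image (fun x => (x.1 : ℂ)) ∪ S.image c ∪ {(b : ℂ)} :=
    ⟨_, rfl⟩
  have hsalg : ∀ x ∈ s, IsAlgebraic ℚ x := by
    intro x hx
    rw [hs, Finset.mem_union, Finset.mem_union, Finset.mem_image, Finset.mem_image,
      Finset.mem_singleton] at hx
    rcases hx with (⟨y, hy, rfl⟩ | ⟨y, hy, rfl⟩) | rfl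
    · exact h1 y hy
    · exact h2 y hy
    · exact isAlgebraic_natCast b
  obtain ⟨q₀, hq₀⟩ := exists_field s hsalg b hb
  obtain ⟨q, hqge, hq⟩ := Nat.exists_infinite_primes (q₀ + r + T + 3)
  obtain ⟨F, _, _, ι, hι, hC⟩ := hq₀ q hq (by omega)
  have hιinj : Function.Injective ι := ι.injective
  have hrq : r.Coprime q := by
    rw [Nat.coprime_comm]
    refine (Nat.Prime.coprime_iff_not_dvd hq).2 fun hd => ?_
    have := Nat.le_of_dvd (by omega) hd
    omega
  refine ⟨q, hq.one_lt.le, Nat.Coprime.mul_right hrT hrq, ?_⟩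
  have hba : ∃ y, ι y = (b : ℂ) := hι _ (by rw [hs]; simp)
  have hαe : ∀ x : ℂˣ × ℕ, ∃ y : F, x ∈ S → ι y = (x.1 : ℂ) := by
    intro x
    by_cases hx : x ∈ S
    · obtain ⟨y, hy⟩ := hι (x.1 : ℂ) (by
        rw [hs]
        exact Finset.mem_union_left _ (Finset.mem_union_left _ (Finset.mem_image_of_mem _ hx)))
      exact ⟨y, fun _ => hy⟩
    · exact ⟨0, fun h => absurd h hx⟩
  have hce : ∀ x : ℂˣ × ℕ, ∃ y : F, x ∈ S → ι y = c x := by
    intro x
    by_cases hx : x ∈ S
    · obtain ⟨y, hy⟩ := hι (c x) (by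
        rw [hs]
        exact Finset.mem_union_left _ (Finset.mem_union_right _ (Finset.mem_image_of_mem _ hx)))
      exact ⟨y, fun _ => hy⟩
    · exact ⟨0, fun h => absurd h hx⟩
  choose α hα using hαe
  choose c' hc' using hce
  -- the sequences
  obtain ⟨d, hd⟩ : ∃ d, d = Module.finrank ℚ F := ⟨_, rfl⟩
  obtain ⟨β, hβ⟩ : ∃ β, β = b ^ (T * q) := ⟨_, rfl⟩
  obtain ⟨A, hA⟩ : ∃ A, A = 2 * b ^ r := ⟨_, rfl⟩
  have hβ1 : 1 ≤ β := by rw [hβ]; exact Nat.one_le_pow _ _ (by omega)
  have hA1 : 1 ≤ A := by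
    rw [hA]
    have : 1 ≤ b ^ r := Nat.one_le_pow _ _ (by omega)
    omega
  obtain ⟨f', hf'⟩ : ∃ f' : ℕ → ℤ, f' = fun k => f (q * k) := ⟨_, rfl⟩
  obtain ⟨g', hg'⟩ : ∃ g' : ℕ → ℤ, g' = fun k => g (q * k) := ⟨_, rfl⟩
  have hfg' : ∀ k, f' k * g' k = (b : ℤ) ^ (r + T * (q * k)) + 1 := by
    intro k
    rw [hf', hg']
    exact hfg _
  have hNfun : (fun k => f' k * g' k) = fun k => (b : ℤ) ^ (r + T * (q * k)) + 1 := funext hfg'
  have hf'F : ∀ k, (f' k : F) = ∑ x ∈ S, c' x * (α x ^ q) ^ k := by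
    intro k
    apply hιinj
    rw [map_intCast, map_sum, hf']
    simp only
    rw [hfS]
    refine Finset.sum_congr rfl fun x hx => ?_
    rw [hpol x hx, pow_zero, one_mul, map_mul, map_pow, map_pow, hc' x hx, hα x hx, pow_mul]
  obtain ⟨Sv, hSv, hinj, hsum⟩ := hC (d * Real.log β + 1)
  have hbv : ∀ v ∈ Sv, v.valuation F ((b : ℕ) : F) = 1 := by
    intro v hv
    obtain ⟨-, -, h3, -⟩ := hSv v hv
    refine h3 _ ?_ ?_
    · rw [map_natCast, hs]
      simp
    · exact_mod_cast (by omega : b ≠ 0)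
  -- the differences of the cofactor
  have hD : ∀ v ∈ Sv, ∀ j k, (((Df (Ideal.absNorm v.asIdeal - 1))^[j] g' k : ℤ) : 𝓞 F) ∈
      v.asIdeal ^ j := by
    intro v hv
    obtain ⟨hp, hp3, h3, h4⟩ := hSv v hv
    have : Fact (Ideal.absNorm v.asIdeal).Prime := ⟨hp⟩
    refine leib v.asIdeal (Ideal.absNorm v.asIdeal) hp (Ideal.absNorm_mem _) _ f' g' ?_ ?_ ?_
    · refine smp v _ rfl S c' (fun x => α x ^ q) ?_ ?_ f' hf'F
      · intro x hx
        refine (h3 _ ?_ ?_).le
        · rw [hc' x hx, hs]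
          exact Finset.mem_union_left _ (Finset.mem_union_right _ (Finset.mem_image_of_mem _ hx))
        · intro h0
          have h5 := hc' x hx
          rw [h0, map_zero] at h5
          exact hc x hx h5.symm
      · intro x hx
        rw [map_pow, h3 (α x), one_pow]
        · rw [hα x hx, hs]
          exact Finset.mem_union_left _ (Finset.mem_union_left _ (Finset.mem_image_of_mem _ hx))
        · intro h0
          have h5 := hα x hx
          rw [h0, map_zero] at h5
          exact x.1.ne_zero h5.symm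
    · rw [hNfun]
      refine smp v _ rfl (Finset.univ : Finset Bool) (fun i => if i then ((b : ℕ) : F) ^ r else 1)
        (fun i => if i then ((b : ℕ) : F) ^ (T * q) else 1) ?_ ?_ _ ?_
      · intro i _
        cases i
        · simp
        · simp only [if_true, map_pow, hbv v hv, one_pow, le_refl]
      · intro i _
        cases i
        · simp
        · simp only [if_true, map_pow, hbv v hv, one_pow]
      · intro k
        simp only [Fintype.sum_bool, if_true, Bool.false_eq_true, if_false, one_pow, mul_one]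
        push_cast
        rw [pow_add, ← mul_assoc T q k, pow_mul _ (T * q) k]
    · intro k hk
      have h5 : ((Ideal.absNorm v.asIdeal : ℕ) : ℤ) ∣ (b : ℤ) ^ (r + T * (q * k)) + 1 := by
        rw [← hfg' k]
        exact Dvd.dvd.mul_right hk _
      have h6 : Ideal.absNorm v.asIdeal ∣ b ^ (r + T * (q * k)) + 1 := by exact_mod_cast h5
      refine cls b q _ (r + T * (q * k)) hq (by omega) hp ?_ (by omega) h4 h6
      intro hdv
      have h7 : q ∣ T * (q * k) := Dvd.dvd.mul_left (Dvd.intro _ rfl) _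
      have h8 := (Nat.dvd_add_left h7).1 hdv
      have := Nat.le_of_dvd (by omega) h8
      omega
  -- the Hankel determinants
  obtain ⟨S', hS'⟩ : ∃ S' : Finset ℕ, S' = Sv.image (fun v => Ideal.absNorm v.asIdeal) := ⟨_, rfl⟩
  obtain ⟨n₁, hn₁⟩ := grw d A β hA1 hβ1 S' (by
    intro p hp
    rw [hS', Finset.mem_image] at hp
    obtain ⟨v, hv, rfl⟩ := hp
    exact ⟨(hSv v hv).1, (hSv v hv).2.1⟩) (by
    rw [hS', Finset.sum_image hinj]
    exact hsum)
  obtain ⟨m, e, hem, hrec⟩ := kro g' n₁ (fun n hn => by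
    refine hn₁ n hn (hk g' n) (hk_le g' A β ?_ n) ?_
    · intro k
      have h5 : f' k ≠ 0 := by
        intro h0
        have h6 := hfg' k
        rw [h0, zero_mul] at h6
        have : (0 : ℤ) < (b : ℤ) ^ (r + T * (q * k)) + 1 := by positivity
        omega
      have h6 : 1 ≤ |f' k| := Int.one_le_abs h5
      have h7 : |g' k| ≤ |f' k * g' k| := by
        rw [abs_mul]
        exact le_mul_of_one_le_left (abs_nonneg _) h6
      refine h7.trans ?_
      rw [hfg' k, abs_of_pos (by positivity), hA, hβ]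
      push_cast
      rw [← pow_mul, ← mul_assoc T q k, pow_add]
      have h8 : (1 : ℤ) ≤ (b : ℤ) ^ r * (b : ℤ) ^ (T * q * k) := by
        have : 0 < (b : ℤ) ^ r * (b : ℤ) ^ (T * q * k) := by
          have : (0 : ℤ) < b := by exact_mod_cast (by omega : 0 < b)
          positivity
        omega
      linarith
    · intro p hp
      rw [hS', Finset.mem_image] at hp
      obtain ⟨v, hv, rfl⟩ := hp
      rw [hd]
      refine norm_dvd v.asIdeal (hk g' n) _ ?_
      have h3 := (hSv v hv).2.1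
      exact det_mem v.asIdeal _ (by omega) g' (hD v hv) n)
  refine ⟨m, fun j => (e j : ℂ), ?_, fun k => ?_⟩
  · show ((e m : ℚ) : ℂ) ≠ 0
    rw [hem]
    simp
  · have h5 := hrec k
    rw [hg'] at h5
    have h6 := congrArg (fun z : ℚ => (z : ℂ)) h5
    simp only at h6
    push_cast at h6
    exact h6

end HQB
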